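import Pool.Agent.Lib.MP_b03ab8_lc.BDefs
import Pool.Agent.Lib.MP_b03ab8_lc.A.Basic

/-!
# Module B.Inv: the simulation invariant

PROOF of `inv_step`. Let `y = phase1 x`, `nxt = x (nxt j) = y (nxt j)`, `p = G.p j`.
(D) for `n ≥ 1`: `n ≤ y (don j) ↔ τ j n + p ≤ Z`.
 - `x (rem j) = 0`: `y (don j) = x (don j)`; if `τ j n + p = Z` then `τ j n < Z` (`p ≥ 1`), so
   `n < nxt` and `rem0` gives `τ j n + p < Z`, a contradiction; so `< Z` and `≤ Z` agree.
 - `x (rem j) = 1`: `rem1` gives `nxt ≥ 2`, `τ j (nxt - 1) + p = Z`. For `n ≥ 1`,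
   `n ≤ x (don j) ↔ τ j n + p < τ j (nxt - 1) + p ↔ n < nxt - 1` (`τ j` is strictly increasing:
   `tau_lt`), so `x (don j) = nxt - 2`, `y (don j) = nxt - 1`, and
   `n ≤ nxt - 1 ↔ τ j n ≤ τ j (nxt - 1) ↔ τ j n + p ≤ Z`.
 - `x (rem j) ≥ 2`: `τ j (nxt - 1) + p ≥ Z + 1`. If `τ j n + p = Z`, then `τ j n < Z`, `n < nxt`,
   `n ≠ nxt - 1`, so `n + 1 ≤ nxt - 1` and `τ j n + p ≤ τ j (n + 1) ≤ τ j (nxt - 1) < Z`
   (`nxt - 1 < nxt`), a contradiction.
(E) `y (rem j) = 0` implies `τ j n + p ≤ Z` for `1 ≤ n < nxt`; `y (rem j) > 0` implies `nxt ≥ 2` and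
 `τ j (nxt - 1) + p = Z + y (rem j)`. (From `rem0`, `rem1`; for `x (rem j) = 1`:
 `n ≤ nxt - 1`, so `τ j n + p ≤ τ j (nxt - 1) + p = Z`.)
(GO) `G.go y j ↔ τ j nxt = Z`. Note `Z ≤ τ j nxt` (as not `nxt < nxt`).
 If `τ j nxt = Z` and `d e = j`, `nxt = cn e`: `cn e = n_e + a t`, `cm e = m_e + a' t` by `arc`,
 `τ (s e) (cm e) + p (s e) ≤ τ j nxt = Z` (`IsTau.le`), so `cm e ≤ y (don (s e))` by (D)
 (`cm e ≥ 1`). Conversely let `go`. By `IsTau.att`, `τ j nxt = 0` (then `Z = 0`, done) or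
 `nxt = n_e + a t'`, `d e = j`, `τ j nxt = τ (s e) (m_e + a' t') + p (s e)`. By `arc` for `e`,
 `cn e = n_e + a t ≥ nxt` and `t = 0` or `n_e + a (t - 1) < nxt`: so `t = t'` and `nxt = cn e`,
 `cm e = m_e + a' t'`; `go` gives `cm e ≤ y (don (s e))`, so `τ j nxt ≤ Z` by (D).
Now the fields for `Z + 1` and `phase2 G y`: `nxt' = nxt + 1` if `τ j nxt = Z`, else `nxt`.
`nxt`: `n < nxt`: both true; `n = nxt`: (GO); `n > nxt`: `τ j n > τ j nxt ≥ Z`, both false.
`don`: (D). `rem`: if `go` then `y (rem j) = 0` (otherwise (E) gives `τ j (nxt - 1) + p > Z`, but it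
is `≤ τ j nxt = Z`), so `rem' = p > 0` and `τ j (nxt' - 1) + p + 1 = Z + 1 + p`. If not `go`: (E).
`arc`: `j = d e`; if `go` and `nxt = cn e`: take `t + 1` (`nxt + 1 ≤ cn e + a`,
`n_e + a t = nxt < nxt + 1`); if `go` and `nxt ≠ cn e`: `nxt + 1 ≤ cn e`; otherwise unchanged.
`clock`: `Z ≤ z`. The rest is unchanged by the three phases.

`inv_acc`: by the above `x' (nxt i)` satisfies `n < x' (nxt i) ↔ τ i n ≤ Z` for `n ≥ 1` and
`x' (nxt i) ≥ 1`; so `θ ≤ x' (nxt i)` iff `θ ≤ 1` or `τ i (θ - 1) ≤ Z`.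

`inv_bound`: `nxt ≤ Z + 1` (if `nxt ≥ 2`, `n = nxt - 1` has `τ j n < Z` and `n ≤ τ j n + 1`
(`tau_ge`)); the same for `don`; `rem ≤ p ≤ R` (`τ j (nxt - 1) < Z`); `cn e`: `t = 0` or
`n_e + a (t - 1) < nxt ≤ Z + 1`, so `cn e ≤ max (R ^ 3) (Z + 1 + R)` and `t ≤ Z + 1`,
`cm e ≤ R ^ 3 + R (Z + 1)`.
-/

open Finset

namespace Pool.Agent.LinSched

variable {T ι : Type} [DecidableEq T] {G : NGraph T ι} {τ : T → ℕ → ℕ}

theorem inv_init (hG : G.Ok) (hτ : G.IsTau τ) (z θ : ℕ) :
    G.Inv τ z θ 0 (regInit G z θ) where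
  zero := rfl
  one := rfl
  blk := rfl
  zmax := rfl
  theta := rfl
  clock := rfl
  nxt_pos := fun _ => le_rfl
  nxt := fun j n hn => by
    have h1 : regInit G z θ (.nxt j) = 1 := rfl
    rw [h1]
    omega
  don := fun j n hn => by
    have h1 : regInit G z θ (.don j) = 0 := rfl
    rw [h1]
    omega
  rem0 := fun j _ n hn h => by
    have h1 : regInit G z θ (.nxt j) = 1 := rfl
    rw [h1] at h
    omega
  rem1 := fun j h => by
    have h1 : regInit G z θ (.rem j) = 0 := rfl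
    rw [h1] at h
    omega
  arc := fun e => ⟨0, rfl, rfl, hG.n_pos e, Or.inl rfl⟩

omit [DecidableEq T] in
private theorem inv_D (hG : G.Ok) (hτ : G.IsTau τ) {z θ Z : ℕ} {x : Reg T ι → ℕ}
    (h : G.Inv τ z θ Z x) (j : T) (n : ℕ) (hn : 1 ≤ n) :
    n ≤ phase1 x (.don j) ↔ τ j n + G.p j ≤ Z := by
  have hp := hG.p_pos j
  have hd := h.don j
  have hx := h.nxt j
  have hpos := h.nxt_pos j
  rcases Nat.lt_trichotomy (x (.rem j)) 1 with h1 | h1 | h1
  · have hr : x (.rem j) = 0 := by omega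
    have h2 : phase1 x (.don j) = x (.don j) := if_neg (by omega)
    rw [h2, hd n hn]
    constructor
    · intro h3
      exact h3.le
    · intro h3
      by_contra h4
      have h5 : n < x (.nxt j) := (hx n hn).2 (by omega)
      have h6 := h.rem0 j hr n hn h5
      omega
  · have h2 : phase1 x (.don j) = x (.don j) + 1 := if_pos h1
    obtain ⟨h3, h4⟩ := h.rem1 j (by omega)
    rw [h1] at h4
    rw [h2]
    constructor
    · intro h5
      by_cases h6 : n ≤ x (.don j)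
      · exact ((hd n hn).1 h6).le
      · have h7 : n = x (.don j) + 1 := by omega
        have h8 : n ≤ x (.nxt j) - 1 := by
          by_contra h9
          have h10 : x (.nxt j) - 1 ≤ x (.don j) := by omega
          have h11 := (hd (x (.nxt j) - 1) (by omega)).1 h10
          omega
        have h9 := tau_mono hG hτ j hn h8
        omega
    · intro h5
      by_contra h6
      have h7 : ¬ (n - 1 ≤ x (.don j)) := by omega
      rw [hd (n - 1) (by omega)] at h7
      have h8 := tau_lt hG hτ j (m := n - 1) (n := n) (by omega) (by omega)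
      omega
  · have h2 : phase1 x (.don j) = x (.don j) := if_neg (by omega)
    obtain ⟨h3, h4⟩ := h.rem1 j (by omega)
    rw [h2, hd n hn]
    constructor
    · intro h5
      exact h5.le
    · intro h5
      by_contra h6
      have h7 : n < x (.nxt j) := (hx n hn).2 (by omega)
      have h8 : n ≠ x (.nxt j) - 1 := by
        intro h9
        rw [← h9] at h4
        omega
      have h9 := tau_lt hG hτ j (m := n) (n := x (.nxt j) - 1) hn (by omega)
      have h10 := (hx (x (.nxt j) - 1) (by omega)).1 (by omega)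
      omega

omit [DecidableEq T] in
private theorem inv_E0 (hG : G.Ok) (hτ : G.IsTau τ) {z θ Z : ℕ} {x : Reg T ι → ℕ}
    (h : G.Inv τ z θ Z x) (j : T) (hr : phase1 x (.rem j) = 0) (n : ℕ) (hn : 1 ≤ n)
    (hnx : n < x (.nxt j)) : τ j n + G.p j ≤ Z := by
  have h1 : phase1 x (.rem j) = x (.rem j) - 1 := rfl
  rw [h1] at hr
  by_cases h2 : x (.rem j) = 0
  · exact (h.rem0 j h2 n hn hnx).le
  · obtain ⟨h3, h4⟩ := h.rem1 j (by omega)
    have h5 := tau_mono hG hτ j hn (by omega : n ≤ x (.nxt j) - 1)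
    omega

omit [DecidableEq T] in
private theorem inv_E1 {z θ Z : ℕ} {x : Reg T ι → ℕ}
    (h : G.Inv τ z θ Z x) (j : T) (hr : 0 < phase1 x (.rem j)) :
    2 ≤ x (.nxt j) ∧ τ j (x (.nxt j) - 1) + G.p j = Z + phase1 x (.rem j) := by
  have h1 : phase1 x (.rem j) = x (.rem j) - 1 := rfl
  rw [h1] at hr ⊢
  obtain ⟨h3, h4⟩ := h.rem1 j (by omega)
  exact ⟨h3, by omega⟩

omit [DecidableEq T] in
private theorem inv_ge {z θ Z : ℕ} {x : Reg T ι → ℕ} (h : G.Inv τ z θ Z x) (j : T) :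
    Z ≤ τ j (x (.nxt j)) := by
  have h1 := h.nxt j (x (.nxt j)) (h.nxt_pos j)
  by_contra h2
  exact lt_irrefl _ (h1.2 (not_le.1 h2))

omit [DecidableEq T] in
private theorem inv_go (hG : G.Ok) (hτ : G.IsTau τ) {z θ Z : ℕ} {x : Reg T ι → ℕ}
    (h : G.Inv τ z θ Z x) (j : T) : G.go (phase1 x) j ↔ τ j (x (.nxt j)) = Z := by
  have hge := inv_ge h j
  constructor
  · intro hgo
    rcases hτ.att j (x (.nxt j)) (h.nxt_pos j) with h1 | ⟨e, t', h1, h2, h3⟩
    · omega
    · obtain ⟨t, h4, h5, h6, h7⟩ := h.arc e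
      rw [h1] at h6 h7
      have ha := hG.a_pos e
      have ht : t = t' := by
        rw [h2, h4] at h6
        rw [h2] at h7
        have h8 : G.a e * t' ≤ G.a e * t := by omega
        have h9 : t' ≤ t := Nat.le_of_mul_le_mul_left h8 ha
        rcases h7 with h7 | h7
        · omega
        · have h10 : G.a e * (t - 1) < G.a e * t' := by omega
          have h11 : t - 1 < t' := Nat.lt_of_mul_lt_mul_left h10
          omega
      subst ht
      have h8 : phase1 x (.nxt j) = phase1 x (.cn e) := by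
        have h9 : phase1 x (.nxt j) = x (.nxt j) := rfl
        have h10 : phase1 x (.cn e) = x (.cn e) := rfl
        rw [h9, h10, h2, h4]
      have h9 := hgo e h1 h8
      have h10 : phase1 x (.cm e) = x (.cm e) := rfl
      rw [h10, h5] at h9
      have h11 := (inv_D hG hτ h (G.s e) _ (by have := hG.m_pos e; omega)).1 h9
      omega
  · intro hZ e he hc
    have h9 : phase1 x (.nxt j) = x (.nxt j) := rfl
    have h10 : phase1 x (.cn e) = x (.cn e) := rfl
    have h11 : phase1 x (.cm e) = x (.cm e) := rfl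
    rw [h9, h10] at hc
    rw [h11]
    obtain ⟨t, h4, h5, h6, h7⟩ := h.arc e
    have h12 := hτ.le e t
    rw [← h4, ← hc, he, hZ, ← h5] at h12
    exact (inv_D hG hτ h (G.s e) _ (by have := hG.m_pos e; omega)).2 h12

theorem inv_step (hG : G.Ok) (hτ : G.IsTau τ) (z θ Z : ℕ) (hZ : Z ≤ z) (i : T)
    (x : Reg T ι → ℕ) (h : G.Inv τ z θ Z x) :
    G.Inv τ z θ (Z + 1) (phase3 i (phase2 G (phase1 x))) := by
  have hn1 : ∀ j, G.go (phase1 x) j →
      phase3 i (phase2 G (phase1 x)) (.nxt j) = x (.nxt j) + 1 := fun j hj => if_pos hj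
  have hn2 : ∀ j, ¬ G.go (phase1 x) j →
      phase3 i (phase2 G (phase1 x)) (.nxt j) = x (.nxt j) := fun j hj => if_neg hj
  have hr1 : ∀ j, G.go (phase1 x) j →
      phase3 i (phase2 G (phase1 x)) (.rem j) = phase1 x (.rem j) + G.p j :=
    fun j hj => if_pos hj
  have hr2 : ∀ j, ¬ G.go (phase1 x) j →
      phase3 i (phase2 G (phase1 x)) (.rem j) = phase1 x (.rem j) := fun j hj => if_neg hj
  have hc1 : ∀ e, G.go (phase1 x) (G.d e) ∧ x (.nxt (G.d e)) = x (.cn e) →
      phase3 i (phase2 G (phase1 x)) (.cn e) = x (.cn e) + G.a e := fun j hj => if_pos hj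
  have hc2 : ∀ e, ¬ (G.go (phase1 x) (G.d e) ∧ x (.nxt (G.d e)) = x (.cn e)) →
      phase3 i (phase2 G (phase1 x)) (.cn e) = x (.cn e) := fun j hj => if_neg hj
  have hm1 : ∀ e, G.go (phase1 x) (G.d e) ∧ x (.nxt (G.d e)) = x (.cn e) →
      phase3 i (phase2 G (phase1 x)) (.cm e) = x (.cm e) + G.a' e := fun j hj => if_pos hj
  have hm2 : ∀ e, ¬ (G.go (phase1 x) (G.d e) ∧ x (.nxt (G.d e)) = x (.cn e)) →
      phase3 i (phase2 G (phase1 x)) (.cm e) = x (.cm e) := fun j hj => if_neg hj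
  constructor
  · exact h.zero
  · exact h.one
  · exact h.blk
  · exact h.zmax
  · exact h.theta
  · have h1 : phase3 i (phase2 G (phase1 x)) .clock =
        if x .clock ≤ x .zmax then x .clock + 1 else x .clock := rfl
    rw [h1, h.clock, h.zmax, if_pos hZ]
  · intro j
    have h1 := h.nxt_pos j
    by_cases hgo : G.go (phase1 x) j
    · rw [hn1 j hgo]
      omega
    · rw [hn2 j hgo]
      exact h1
  · intro j n hn
    have hp := hG.p_pos j
    have h0 := h.nxt_pos j
    have hge := inv_ge h j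
    by_cases hgo : G.go (phase1 x) j
    · rw [hn1 j hgo]
      have hZ' := (inv_go hG hτ h j).1 hgo
      constructor
      · intro h1
        have h2 := tau_mono hG hτ j hn (by omega : n ≤ x (.nxt j))
        omega
      · intro h1
        by_contra h2
        have h3 := tau_lt hG hτ j (m := x (.nxt j)) (n := n) h0 (by omega)
        omega
    · rw [hn2 j hgo]
      have hZ' : τ j (x (.nxt j)) ≠ Z := fun h1 => hgo ((inv_go hG hτ h j).2 h1)
      constructor
      · intro h1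
        have := (h.nxt j n hn).1 h1
        omega
      · intro h1
        by_contra h2
        have h3 := tau_mono hG hτ j h0 (by omega : x (.nxt j) ≤ n)
        omega
  · intro j n hn
    have h1 : phase3 i (phase2 G (phase1 x)) (.don j) = phase1 x (.don j) := rfl
    rw [h1, inv_D hG hτ h j n hn]
    omega
  · intro j hr n hn hlt
    have hp := hG.p_pos j
    by_cases hgo : G.go (phase1 x) j
    · rw [hr1 j hgo] at hr
      omega
    · rw [hr2 j hgo] at hr
      rw [hn2 j hgo] at hlt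
      have := inv_E0 hG hτ h j hr n hn hlt
      omega
  · intro j hr
    have hp := hG.p_pos j
    have h0 := h.nxt_pos j
    by_cases hgo : G.go (phase1 x) j
    · have hZ' := (inv_go hG hτ h j).1 hgo
      rw [hn1 j hgo, hr1 j hgo]
      have h1 : phase1 x (.rem j) = 0 := by
        by_contra h2
        obtain ⟨h3, h4⟩ := inv_E1 h j (Nat.pos_of_ne_zero h2)
        have h5 := tau_lt hG hτ j (m := x (.nxt j) - 1) (n := x (.nxt j)) (by omega) (by omega)
        omega
      rw [h1, Nat.add_sub_cancel, hZ']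
      omega
    · rw [hr2 j hgo] at hr
      rw [hn2 j hgo, hr2 j hgo]
      obtain ⟨h3, h4⟩ := inv_E1 h j hr
      omega
  · intro e
    obtain ⟨t, h4, h5, h6, h7⟩ := h.arc e
    have ha := hG.a_pos e
    by_cases hgo : G.go (phase1 x) (G.d e)
    · rw [hn1 _ hgo]
      by_cases hc : x (.nxt (G.d e)) = x (.cn e)
      · refine ⟨t + 1, ?_, ?_, ?_, Or.inr ?_⟩
        · rw [hc1 e ⟨hgo, hc⟩, h4, Nat.mul_add, Nat.mul_one, Nat.add_assoc]
        · rw [hm1 e ⟨hgo, hc⟩, h5, Nat.mul_add, Nat.mul_one, Nat.add_assoc]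
        · rw [hc1 e ⟨hgo, hc⟩]
          omega
        · rw [Nat.add_sub_cancel, ← h4]
          omega
      · have hc' : ¬ (G.go (phase1 x) (G.d e) ∧ x (.nxt (G.d e)) = x (.cn e)) :=
          fun h8 => hc h8.2
        refine ⟨t, ?_, ?_, ?_, ?_⟩
        · rw [hc2 e hc', h4]
        · rw [hm2 e hc', h5]
        · rw [hc2 e hc']
          omega
        · rcases h7 with h7 | h7
          · exact Or.inl h7
          · exact Or.inr (by omega)
    · have hc' : ¬ (G.go (phase1 x) (G.d e) ∧ x (.nxt (G.d e)) = x (.cn e)) :=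
        fun h8 => hgo h8.1
      rw [hn2 _ hgo]
      exact ⟨t, by rw [hc2 e hc', h4], by rw [hm2 e hc', h5], by rw [hc2 e hc']; exact h6, h7⟩

theorem inv_acc (hG : G.Ok) (hτ : G.IsTau τ) (z θ Z : ℕ) (hZ : Z ≤ z) (i : T)
    (x : Reg T ι → ℕ) (h : G.Inv τ z θ Z x) :
    phase3 i (phase2 G (phase1 x)) .acc =
      if (θ ≤ 1 ∨ τ i (θ - 1) ≤ Z) ∧ x .acc = 0 then 1 else x .acc := by
  have h' := inv_step hG hτ z θ Z hZ i x h
  set N' : ℕ := phase3 i (phase2 G (phase1 x)) (.nxt i) with hN'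
  have h1 : phase3 i (phase2 G (phase1 x)) .acc =
      if x .clock ≤ x .zmax ∧ x .theta ≤ N' ∧ x .acc ≤ x .zero then x .acc + 1
      else x .acc := rfl
  have hpos : 1 ≤ N' := h'.nxt_pos i
  have hnx : ∀ n, 1 ≤ n → (n < N' ↔ τ i n < Z + 1) := h'.nxt i
  rw [h1, h.clock, h.zmax, h.theta, h.zero]
  have h2 : θ ≤ N' ↔ (θ ≤ 1 ∨ τ i (θ - 1) ≤ Z) := by
    by_cases h3 : θ ≤ 1
    · exact ⟨fun _ => Or.inl h3, fun _ => h3.trans hpos⟩
    · have h4 := hnx (θ - 1) (by omega)
      constructor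
      · intro h5
        exact Or.inr (Nat.lt_succ_iff.1 (h4.1 (by omega)))
      · rintro (h5 | h5)
        · exact absurd h5 h3
        · have := h4.2 (Nat.lt_succ_of_le h5)
          omega
  by_cases h3 : (θ ≤ 1 ∨ τ i (θ - 1) ≤ Z) ∧ x .acc = 0
  · rw [if_pos h3, if_pos ⟨hZ, h2.2 h3.1, h3.2.le⟩, h3.2]
  · rw [if_neg h3, if_neg]
    rintro ⟨_, h4, h5⟩
    exact h3 ⟨h2.1 h4, Nat.le_zero.1 h5⟩

theorem inv_bound [Fintype T] [Fintype ι] (hG : G.Ok) (hτ : G.IsTau τ) {R : ℕ}
    (hR : G.Bnd R) (z θ Z : ℕ) (x : Reg T ι → ℕ) (h : G.Inv τ z θ Z x) (r : Reg T ι)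
    (h1 : r ≠ .zmax) (h2 : r ≠ .theta) (h3 : r ≠ .acc) : x r ≤ R ^ 3 + R * (Z + 1) := by
  have hR2 := hR.two_le
  have hRZ : Z + 1 ≤ R * (Z + 1) := Nat.le_mul_of_pos_left _ (by omega)
  have hR1 : R ≤ R * (Z + 1) := Nat.le_mul_of_pos_right _ (by omega)
  have hR3 : R ≤ R ^ 3 := Nat.le_self_pow (by norm_num) R
  have hnx : ∀ j, x (.nxt j) ≤ Z + 1 := by
    intro j
    by_cases h4 : x (.nxt j) ≤ 1
    · omega
    · have h5 := (h.nxt j (x (.nxt j) - 1) (by omega)).1 (by omega)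
      have h6 := tau_ge hG hτ j (n := x (.nxt j) - 1) (by omega)
      omega
  cases r with
  | zero => rw [h.zero]; omega
  | one => rw [h.one]; omega
  | zmax => exact absurd rfl h1
  | theta => exact absurd rfl h2
  | clock => rw [h.clock]; omega
  | blk => rw [h.blk]; omega
  | acc => exact absurd rfl h3
  | nxt j => have := hnx j; omega
  | don j =>
    by_cases h4 : x (.don j) = 0
    · omega
    · have h5 := (h.don j (x (.don j)) (by omega)).1 le_rfl
      have h6 := tau_ge hG hτ j (n := x (.don j)) (by omega)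
      omega
  | rem j =>
    by_cases h4 : x (.rem j) = 0
    · omega
    · obtain ⟨h5, h6⟩ := h.rem1 j (by omega)
      have h7 := (h.nxt j (x (.nxt j) - 1) (by omega)).1 (by omega)
      have h8 := hR.p_le j
      omega
  | cn e =>
    obtain ⟨t, h4, h5, h6, h7⟩ := h.arc e
    have h8 := hR.n_le e
    have h9 := hR.a_le e
    have h10 := hnx (G.d e)
    rw [h4]
    rcases h7 with h7 | h7
    · rw [h7, Nat.mul_zero]
      omega
    · by_cases ht : t = 0
      · rw [ht, Nat.mul_zero]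
        omega
      · have h11 : G.a e * t = G.a e * (t - 1) + G.a e := by
          obtain ⟨s, rfl⟩ : ∃ s, t = s + 1 := ⟨t - 1, by omega⟩
          rw [Nat.add_sub_cancel]
          ring
        omega
  | cm e =>
    obtain ⟨t, h4, h5, h6, h7⟩ := h.arc e
    have h8 := hR.m_le e
    have h9 := hR.a'_le e
    have h10 := hnx (G.d e)
    have ha := hG.a_pos e
    rw [h5]
    have ht : t ≤ Z + 1 := by
      rcases h7 with h7 | h7
      · omega
      · have h11 : t - 1 ≤ G.a e * (t - 1) := Nat.le_mul_of_pos_left _ ha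
        omega
    have h12 : G.a' e * t ≤ R * (Z + 1) := Nat.mul_le_mul h9 ht
    omega

end Pool.Agent.LinSched
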