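import Pool.Agent.Lib.MP_b03ab8_lc.BDefs

/-!
# Module B.PhaseA: phases 1 and 3, and the frozen machine

PROOF. `run_phase1`: the two instructions for `j` (with `x .one = 1`, all values `< 2 ^ w - 1`):
first: if `x (rem j) = 1` then `don j` increases by `1`; second: if `1 ≤ x (rem j)` then
`rem j` becomes `(x (rem j) + (2 ^ w - 1)) % 2 ^ w = x (rem j) - 1`. Only `don j` and `rem j`
change, and they are read only in the block of `j`; as `Ts` contains every task exactly once, the
total effect is `phase1` (induction on the list: after the tasks in an initial part `L` of `Ts`,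
the state is `phase1 x` on the registers `don j`, `rem j` with `j ∈ L` and `x` elsewhere; note
that `x .one = 1` stays).
`run_phase3`: two instructions; the first does not change `clock` or `zmax`.
`run_frozen`: for an arbitrary `x` (overflow allowed) with `x .zmax < x .clock`: no instruction
of phases 1, 2 has a target among `clock`, `zmax`, `acc`; both instructions of `prog3` have
the condition `clock ≤ zmax`.
-/

open Finset

namespace Pool.Agent.LinSched

variable {T ι : Type} [DecidableEq T] [DecidableEq ι]

private theorem pa_append {ρ : Type} [DecidableEq ρ] (w : ℕ) (P Q : List (Instr ρ)) (x : ρ → ℕ) :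
    runInstrs w (P ++ Q) x = runInstrs w Q (runInstrs w P x) := by
  unfold runInstrs
  rw [List.foldl_append]

private theorem pa_pres {ρ : Type} [DecidableEq ρ] (w : ℕ) (P : List (Instr ρ)) (r : ρ)
    (h : ∀ I ∈ P, I.tgt ≠ r) (x : ρ → ℕ) : runInstrs w P x r = x r := by
  induction P generalizing x with
  | nil => rfl
  | cons I P ih =>
    change runInstrs w P (I.exec w x) r = x r
    rw [ih (fun J hJ => h J (List.mem_cons_of_mem _ hJ))]
    unfold Instr.exec
    split_ifs
    · rw [Function.update_of_ne (h I List.mem_cons_self).symm]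
    · rfl

private theorem pa_one (w : ℕ) (j : T) (x : Reg T ι → ℕ) (h1 : x .one = 1) (hd : x (.don j) + 1 < 2 ^ w)
    (hr : x (.rem j) + 1 < 2 ^ w) :
    runInstrs w (prog1 w j) x =
      Function.update (Function.update x (.don j) (phase1 x (.don j))) (.rem j) (phase1 x (.rem j)) := by
  have e1 : (⟨eqc (.rem j) .one, .don j, 1⟩ : Instr (Reg T ι)).exec w x =
      Function.update x (.don j) (phase1 x (.don j)) := by
    unfold Instr.exec
    by_cases hc : x (.rem j) = 1
    · have h2 : (⟨eqc (.rem j) .one, .don j, 1⟩ : Instr (Reg T ι)).holds x = true := by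
        simp [Instr.holds, eqc, h1, hc]
      rw [if_pos h2]
      congr 1
      change (x (.don j) + 1) % 2 ^ w = if x (.rem j) = 1 then x (.don j) + 1 else x (.don j)
      rw [if_pos hc, Nat.mod_eq_of_lt hd]
    · have h2 : ¬ (⟨eqc (.rem j) .one, .don j, 1⟩ : Instr (Reg T ι)).holds x = true := by
        simp only [Instr.holds, eqc, h1, List.all_cons, List.all_nil, Bool.and_true, beq_true, Bool.and_eq_true,
          decide_eq_true_eq]
        omega
      rw [if_neg h2]
      have h3 : phase1 x (.don j) = x (.don j) := by
        change (if x (.rem j) = 1 then x (.don j) + 1 else x (.don j)) = x (.don j)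
        rw [if_neg hc]
      rw [h3, Function.update_eq_self]
  have e2 : ∀ y : Reg T ι → ℕ, y .one = 1 → y (.rem j) = x (.rem j) →
      (⟨[(.one, .rem j, true)], .rem j, 2 ^ w - 1⟩ : Instr (Reg T ι)).exec w y =
      Function.update y (.rem j) (phase1 x (.rem j)) := by
    intro y hy1 hyr
    unfold Instr.exec
    by_cases hc : 1 ≤ x (.rem j)
    · have h2 : (⟨[(.one, .rem j, true)], .rem j, 2 ^ w - 1⟩ : Instr (Reg T ι)).holds y = true := by
        simp [Instr.holds, hy1, hyr, hc]
      rw [if_pos h2]
      congr 1
      change (y (.rem j) + (2 ^ w - 1)) % 2 ^ w = x (.rem j) - 1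
      rw [hyr]
      have h3 : x (.rem j) + (2 ^ w - 1) = (x (.rem j) - 1) + 2 ^ w := by omega
      rw [h3, Nat.add_mod_right, Nat.mod_eq_of_lt (by omega)]
    · have h2 : ¬ (⟨[(.one, .rem j, true)], .rem j, 2 ^ w - 1⟩ : Instr (Reg T ι)).holds y = true := by
        simp only [Instr.holds, hy1, hyr, List.all_cons, List.all_nil, Bool.and_true, beq_true, decide_eq_true_eq]
        exact hc
      rw [if_neg h2]
      have h3 : phase1 x (.rem j) = y (.rem j) := by
        change x (.rem j) - 1 = y (.rem j)
        rw [hyr]
        omega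
      rw [h3, Function.update_eq_self]
  change (⟨[(.one, .rem j, true)], .rem j, 2 ^ w - 1⟩ : Instr (Reg T ι)).exec w
    ((⟨eqc (.rem j) .one, .don j, 1⟩ : Instr (Reg T ι)).exec w x) = _
  rw [e1]
  exact e2 _ (by rw [Function.update_of_ne (by simp), h1]) (by rw [Function.update_of_ne (by simp)])

/-- the state after the tasks in `L` -/
private def pa_st (L : List T) (x : Reg T ι → ℕ) : Reg T ι → ℕ
  | .don j => if j ∈ L then phase1 x (.don j) else x (.don j)
  | .rem j => if j ∈ L then phase1 x (.rem j) else x (.rem j)
  | r => x r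

private theorem pa_list (w : ℕ) (L : List T) (hL : L.Nodup) (x : Reg T ι → ℕ) (h1 : x .one = 1)
    (hw : ∀ j ∈ L, x (.don j) + 1 < 2 ^ w ∧ x (.rem j) + 1 < 2 ^ w) :
    runInstrs w (L.flatMap (prog1 w)) x = pa_st L x := by
  induction L generalizing x with
  | nil =>
    funext r
    cases r <;> rfl
  | cons j L ih =>
    rw [List.nodup_cons] at hL
    rw [List.flatMap_cons, pa_append, pa_one w j x h1 (hw j List.mem_cons_self).1 (hw j List.mem_cons_self).2]
    set y := Function.update (Function.update x (.don j) (phase1 x (.don j))) (.rem j) (phase1 x (.rem j)) with hy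
    have hyo : ∀ r, r ≠ .don j → r ≠ .rem j → y r = x r := by
      intro r hr1 hr2
      rw [hy, Function.update_of_ne hr2, Function.update_of_ne hr1]
    have hyd : y (.don j) = phase1 x (.don j) := by
      rw [hy, Function.update_of_ne (by simp), Function.update_self]
    have hyr : y (.rem j) = phase1 x (.rem j) := by
      rw [hy, Function.update_self]
    have hyk : ∀ k, k ≠ j → y (.don k) = x (.don k) ∧ y (.rem k) = x (.rem k) := fun k hk =>
      ⟨hyo _ (by simpa using hk) (by simp), hyo _ (by simp) (by simpa using hk)⟩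
    rw [ih hL.2 y (by rw [hyo _ (by simp) (by simp), h1]) (by
      intro k hk
      have hkj : k ≠ j := by
        rintro rfl
        exact hL.1 hk
      rw [(hyk k hkj).1, (hyk k hkj).2]
      exact hw k (List.mem_cons_of_mem _ hk))]
    funext r
    cases r with
    | don k =>
      change (if k ∈ L then (if y (.rem k) = 1 then y (.don k) + 1 else y (.don k)) else y (.don k)) =
        (if k ∈ j :: L then (if x (.rem k) = 1 then x (.don k) + 1 else x (.don k)) else x (.don k))
      by_cases hkj : k = j
      · subst hkj
        rw [if_neg hL.1, if_pos List.mem_cons_self, hyd]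
        rfl
      · rw [(hyk k hkj).1, (hyk k hkj).2]
        have : (k ∈ j :: L) ↔ k ∈ L := by
          rw [List.mem_cons]
          exact ⟨fun h => h.resolve_left hkj, Or.inr⟩
        simp only [this]
    | rem k =>
      change (if k ∈ L then y (.rem k) - 1 else y (.rem k)) =
        (if k ∈ j :: L then x (.rem k) - 1 else x (.rem k))
      by_cases hkj : k = j
      · subst hkj
        rw [if_neg hL.1, if_pos List.mem_cons_self, hyr]
        rfl
      · rw [(hyk k hkj).2]
        have : (k ∈ j :: L) ↔ k ∈ L := by
          rw [List.mem_cons]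
          exact ⟨fun h => h.resolve_left hkj, Or.inr⟩
        simp only [this]
    | zero => exact hyo _ (by simp) (by simp)
    | one => exact hyo _ (by simp) (by simp)
    | zmax => exact hyo _ (by simp) (by simp)
    | theta => exact hyo _ (by simp) (by simp)
    | clock => exact hyo _ (by simp) (by simp)
    | blk => exact hyo _ (by simp) (by simp)
    | acc => exact hyo _ (by simp) (by simp)
    | nxt k => exact hyo _ (by simp) (by simp)
    | cn e => exact hyo _ (by simp) (by simp)
    | cm e => exact hyo _ (by simp) (by simp)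

theorem run_phase1 (w : ℕ) (Ts : List T) (hT : ∀ j, j ∈ Ts) (hT' : Ts.Nodup)
    (x : Reg T ι → ℕ) (h1 : x .one = 1) (hw : ∀ r, x r + 1 < 2 ^ w) :
    runInstrs w (Ts.flatMap (prog1 w)) x = phase1 x := by
  rw [pa_list w Ts hT' x h1 fun j _ => ⟨hw _, hw _⟩]
  funext r
  cases r with
  | don k =>
    change (if k ∈ Ts then _ else _) = _
    rw [if_pos (hT k)]
  | rem k =>
    change (if k ∈ Ts then _ else _) = _
    rw [if_pos (hT k)]
  | _ => rfl

theorem run_phase3 (w : ℕ) (i : T) (x : Reg T ι → ℕ) (hw : ∀ r, x r + 1 < 2 ^ w) :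
    runInstrs w (prog3 i) x = phase3 i x := by
  have e1 : (⟨[(.clock, .zmax, true), (.theta, .nxt i, true), (.acc, .zero, true)], .acc, 1⟩ :
      Instr (Reg T ι)).exec w x = Function.update x .acc (phase3 i x .acc) := by
    unfold Instr.exec
    by_cases hc : x .clock ≤ x .zmax ∧ x .theta ≤ x (.nxt i) ∧ x .acc ≤ x .zero
    · have h2 : (⟨[(.clock, .zmax, true), (.theta, .nxt i, true), (.acc, .zero, true)], .acc, 1⟩ :
          Instr (Reg T ι)).holds x = true := by
        simp only [Instr.holds, List.all_cons, List.all_nil, Bool.and_true, beq_true, Bool.and_eq_true,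
          decide_eq_true_eq]
        exact hc
      rw [if_pos h2]
      congr 1
      change (x .acc + 1) % 2 ^ w = if x .clock ≤ x .zmax ∧ x .theta ≤ x (.nxt i) ∧ x .acc ≤ x .zero then x .acc + 1
        else x .acc
      rw [if_pos hc, Nat.mod_eq_of_lt (hw _)]
    · have h2 : ¬ (⟨[(.clock, .zmax, true), (.theta, .nxt i, true), (.acc, .zero, true)], .acc, 1⟩ :
          Instr (Reg T ι)).holds x = true := by
        simp only [Instr.holds, List.all_cons, List.all_nil, Bool.and_true, beq_true, Bool.and_eq_true,
          decide_eq_true_eq]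
        exact hc
      rw [if_neg h2]
      have h3 : phase3 i x .acc = x .acc := by
        change (if x .clock ≤ x .zmax ∧ x .theta ≤ x (.nxt i) ∧ x .acc ≤ x .zero then x .acc + 1
          else x .acc) = x .acc
        rw [if_neg hc]
      rw [h3, Function.update_eq_self]
  have e2 : ∀ y : Reg T ι → ℕ, (∀ r, r ≠ .acc → y r = x r) →
      (⟨[(.clock, .zmax, true)], .clock, 1⟩ : Instr (Reg T ι)).exec w y =
        Function.update y .clock (phase3 i x .clock) := by
    intro y hy
    have hyc : y .clock = x .clock := hy _ (by simp)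
    have hyz : y .zmax = x .zmax := hy _ (by simp)
    unfold Instr.exec
    by_cases hc : x .clock ≤ x .zmax
    · have h2 : (⟨[(.clock, .zmax, true)], .clock, 1⟩ : Instr (Reg T ι)).holds y = true := by
        simp [Instr.holds, hyc, hyz, hc]
      rw [if_pos h2]
      congr 1
      change (y .clock + 1) % 2 ^ w = if x .clock ≤ x .zmax then x .clock + 1 else x .clock
      rw [if_pos hc, hyc, Nat.mod_eq_of_lt (hw _)]
    · have h2 : ¬ (⟨[(.clock, .zmax, true)], .clock, 1⟩ : Instr (Reg T ι)).holds y = true := by
        simp only [Instr.holds, hyc, hyz, List.all_cons, List.all_nil, Bool.and_true, beq_true, decide_eq_true_eq]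
        exact hc
      rw [if_neg h2]
      have h3 : phase3 i x .clock = y .clock := by
        change (if x .clock ≤ x .zmax then x .clock + 1 else x .clock) = y .clock
        rw [if_neg hc, hyc]
      rw [h3, Function.update_eq_self]
  change (⟨[(.clock, .zmax, true)], .clock, 1⟩ : Instr (Reg T ι)).exec w
    ((⟨[(.clock, .zmax, true), (.theta, .nxt i, true), (.acc, .zero, true)], .acc, 1⟩ :
      Instr (Reg T ι)).exec w x) = _
  rw [e1, e2 _ (fun r hr => Function.update_of_ne hr _ _)]
  funext r
  cases r with
  | clock => rw [Function.update_self]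
  | acc => rw [Function.update_of_ne (by simp), Function.update_self]
  | _ => rw [Function.update_of_ne (by simp), Function.update_of_ne (by simp)]; rfl

theorem run_frozen (G : NGraph T ι) (w : ℕ) (Ts : List T) (Es : List ι) (i : T)
    (x : Reg T ι → ℕ) (h : x .zmax < x .clock) :
    runInstrs w (prog G w Ts Es i) x .clock = x .clock ∧
      runInstrs w (prog G w Ts Es i) x .zmax = x .zmax ∧
      runInstrs w (prog G w Ts Es i) x .acc = x .acc := by
  set P1 : List (Instr (Reg T ι)) := Ts.flatMap (prog1 w) ++
    Ts.flatMap (fun j => prog2 G w (Es.filter fun e => decide (G.d e = j)) j) with hP1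
  have htgt : ∀ I ∈ P1, I.tgt ≠ .clock ∧ I.tgt ≠ .zmax ∧ I.tgt ≠ .acc := by
    intro I hI
    rw [hP1] at hI
    simp only [prog1, prog2, List.mem_append, List.mem_flatMap, List.mem_map, List.mem_cons, List.not_mem_nil,
      or_false] at hI
    rcases hI with ⟨j, _, rfl | rfl⟩ | ⟨j, _, (⟨e, _, rfl⟩ | ⟨e, _, rfl | rfl⟩) | rfl | rfl | rfl⟩
    all_goals
      refine ⟨?_, ?_, ?_⟩
      · intro hc
        cases hc
      · intro hc
        cases hc
      · intro hc
        cases hc
  set y := runInstrs w P1 x with hy
  have hyc : y .clock = x .clock := pa_pres w P1 _ (fun I hI => (htgt I hI).1) x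
  have hyz : y .zmax = x .zmax := pa_pres w P1 _ (fun I hI => (htgt I hI).2.1) x
  have hya : y .acc = x .acc := pa_pres w P1 _ (fun I hI => (htgt I hI).2.2) x
  have hrun : runInstrs w (prog G w Ts Es i) x = y := by
    have e0 : prog G w Ts Es i = P1 ++ prog3 i := rfl
    rw [e0, pa_append, ← hy]
    have h2 : ∀ (l : List (Reg T ι × Reg T ι × Bool)) (t : Reg T ι),
        (⟨(.clock, .zmax, true) :: l, t, 1⟩ : Instr (Reg T ι)).exec w y = y := by
      intro l t
      unfold Instr.exec
      rw [if_neg]
      simp only [Instr.holds, List.all_cons, beq_true, Bool.and_eq_true, decide_eq_true_eq, hyc, hyz]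
      intro hc
      omega
    change (⟨[(.clock, .zmax, true)], .clock, 1⟩ : Instr (Reg T ι)).exec w
      ((⟨[(.clock, .zmax, true), (.theta, .nxt i, true), (.acc, .zero, true)], .acc, 1⟩ :
        Instr (Reg T ι)).exec w y) = y
    rw [h2, h2]
  rw [hrun]
  exact ⟨hyc, hyz, hya⟩

end Pool.Agent.LinSched
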