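import Pool.Agent.Lib.MP_b03ab8_lc.BDefs

/-!
# Module B.PhaseB: phase 2

PROOF. The block of task `j`, `E = Es.filter (G.d e = j)` (every arc with target `j` exactly
once), started in a state `x` with `zero = 0`, `one = 1`, `blk = 0`:
(1) first list: after an initial part of `E` only `blk` has changed, `blk = 1` if some `e` of this
part is blocking (`x (nxt j) = x (cn e)` and not `x (cm e) ≤ x (don (s e))`), else `0`
(an instruction with `blk = 1` is not executed because of `blk ≤ zero`). At the end
`blk = 0` iff `G.go x j`.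
(2) second list: if `blk = 1` nothing changes. If `blk = 0`: for every `e ∈ E` with
`x (nxt j) = x (cn e)`, `cm e` increases by `a' e` and then `cn e` by `a e` (the condition is still
true after the change of `cm e`; the registers `cn e`, `cm e` of other arcs and `nxt j` are not
changed; `E` is nodup, so the condition of `e` is evaluated with the original values).
(3) `rem j += p j`, `nxt j += 1` if `blk = 0`; then `blk` becomes `0`
(`(1 + (2 ^ w - 1)) % 2 ^ w = 0`).
No overflow: every value is at most `x r + K < 2 ^ w`.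
So the block changes exactly `nxt j`, `rem j` and `cn e`, `cm e` for the arcs with target `j`, as
in `phase2`. The blocks of the other tasks do not read these registers (they read `don`, which
never changes, and their own registers), so by induction on `Ts` (initial parts, as in
`PhaseA`) the total effect is `phase2 G x`.
-/

open Finset

namespace Pool.Agent.LinSched

variable {T ι : Type} [DecidableEq T] [DecidableEq ι]

private theorem pb_frozen {ρ : Type} [DecidableEq ρ] (w : ℕ) (P : List (Instr ρ)) (x : ρ → ℕ)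
    (h : ∀ I ∈ P, I.holds x = false) : runInstrs w P x = x := by
  induction P with
  | nil => rfl
  | cons I P ih =>
    have h1 : I.exec w x = x := by
      unfold Instr.exec
      rw [h I List.mem_cons_self]
      rfl
    have h2 : runInstrs w (I :: P) x = runInstrs w P (I.exec w x) := rfl
    rw [h2, h1]
    exact ih fun J hJ => h J (List.mem_cons_of_mem _ hJ)

private theorem pb_append {ρ : Type} [DecidableEq ρ] (w : ℕ) (P Q : List (Instr ρ)) (x : ρ → ℕ) :
    runInstrs w (P ++ Q) x = runInstrs w Q (runInstrs w P x) := by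
  unfold runInstrs
  rw [List.foldl_append]

private theorem pb_exec {ρ : Type} [DecidableEq ρ] (w : ℕ) (I : Instr ρ) (x : ρ → ℕ)
    (h : I.holds x = true) (hlt : x I.tgt + I.k < 2 ^ w) :
    I.exec w x = Function.update x I.tgt (x I.tgt + I.k) := by
  unfold Instr.exec
  rw [h, if_pos rfl, Nat.mod_eq_of_lt hlt]

/-- instruction of the first list -/
private def pbI1 (G : NGraph T ι) (j : T) (e : ι) : Instr (Reg T ι) :=
  ⟨eqc (.nxt j) (.cn e) ++ [(.cm e, .don (G.s e), false), (.blk, .zero, true)], .blk, 1⟩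

omit [DecidableEq T] [DecidableEq ι] in
private theorem pbI1_holds (G : NGraph T ι) (j : T) (e : ι) (y : Reg T ι → ℕ)
    (h0 : y .zero = 0) : (pbI1 G j e).holds y = true ↔
      (y (.nxt j) = y (.cn e) ∧ ¬ y (.cm e) ≤ y (.don (G.s e))) ∧ y .blk = 0 := by
  simp only [pbI1, eqc, Instr.holds, List.all_cons, List.all_nil, List.cons_append,
    List.nil_append, Bool.and_true, Bool.and_eq_true, h0, Nat.le_zero, beq_true,
    decide_eq_true_eq, beq_false, Bool.not_eq_true', decide_eq_false_iff_not]
  constructor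
  · rintro ⟨h1, h2, h3, h4⟩
    exact ⟨⟨le_antisymm h1 h2, h3⟩, h4⟩
  · rintro ⟨⟨h1, h3⟩, h4⟩
    exact ⟨h1.le, h1.ge, h3, h4⟩

private theorem pb_first_go (G : NGraph T ι) (w : ℕ) (j : T) (E : List ι) (y : Reg T ι → ℕ)
    (h0 : y .zero = 0)
    (h : ∀ e ∈ E, y (.nxt j) = y (.cn e) → y (.cm e) ≤ y (.don (G.s e))) :
    runInstrs w (E.map (pbI1 G j)) y = y := by
  refine pb_frozen w _ y fun I hI => ?_
  obtain ⟨e, he, rfl⟩ := List.mem_map.1 hI
  rw [← Bool.not_eq_true, pbI1_holds G j e y h0]
  rintro ⟨⟨h1, h2⟩, _⟩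
  exact h2 (h e he h1)

private theorem pb_first_block (G : NGraph T ι) (w : ℕ) (hw : 1 < 2 ^ w) (j : T) (E : List ι)
    (y : Reg T ι → ℕ) (h0 : y .zero = 0) (hb : y .blk = 0)
    (h : ∃ e ∈ E, y (.nxt j) = y (.cn e) ∧ ¬ y (.cm e) ≤ y (.don (G.s e))) :
    runInstrs w (E.map (pbI1 G j)) y = Function.update y .blk 1 := by
  induction E with
  | nil =>
    obtain ⟨e, he, _⟩ := h
    simp at he
  | cons e E ih =>
    have h2 : runInstrs w ((e :: E).map (pbI1 G j)) y =
      runInstrs w (E.map (pbI1 G j)) ((pbI1 G j e).exec w y) := rfl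
    rw [h2]
    by_cases he : y (.nxt j) = y (.cn e) ∧ ¬ y (.cm e) ≤ y (.don (G.s e))
    · have h3 : (pbI1 G j e).exec w y = Function.update y .blk 1 := by
        have h4 := pb_exec w (pbI1 G j e) y ((pbI1_holds G j e y h0).2 ⟨he, hb⟩)
          (by simp only [pbI1, hb]; exact hw)
        rw [h4]
        simp only [pbI1, hb, zero_add]
      rw [h3]
      refine pb_frozen w _ _ fun I hI => ?_
      obtain ⟨e', _, rfl⟩ := List.mem_map.1 hI
      rw [← Bool.not_eq_true, pbI1_holds G j e' _ (by rw [Function.update_of_ne (by simp)]; exact h0)]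
      rintro ⟨_, h5⟩
      rw [Function.update_self] at h5
      exact one_ne_zero h5
    · have h3 : (pbI1 G j e).exec w y = y := by
        have h4 : (pbI1 G j e).holds y = false := by
          rw [← Bool.not_eq_true, pbI1_holds G j e y h0]
          exact fun h5 => he h5.1
        unfold Instr.exec
        rw [h4]
        rfl
      rw [h3]
      refine ih ?_
      obtain ⟨e', he', h5⟩ := h
      rcases List.mem_cons.1 he' with rfl | h6
      · exact absurd h5 he
      · exact ⟨e', h6, h5⟩

/-- instructions of the second list -/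
private def pbI2 (G : NGraph T ι) (j : T) (e : ι) : List (Instr (Reg T ι)) :=
  [⟨(.blk, .zero, true) :: eqc (.nxt j) (.cn e), .cm e, G.a' e⟩,
     ⟨(.blk, .zero, true) :: eqc (.nxt j) (.cn e), .cn e, G.a e⟩]

omit [DecidableEq T] [DecidableEq ι] in
private theorem pbI2_holds (j : T) (e : ι) (t : Reg T ι) (k : ℕ) (y : Reg T ι → ℕ)
    (h0 : y .zero = 0) :
    (⟨(.blk, .zero, true) :: eqc (.nxt j) (.cn e), t, k⟩ : Instr (Reg T ι)).holds y = true ↔
      y .blk = 0 ∧ y (.nxt j) = y (.cn e) := by
  simp only [eqc, Instr.holds, List.all_cons, List.all_nil, Bool.and_true,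
    Bool.and_eq_true, h0, Nat.le_zero, beq_true, decide_eq_true_eq]
  constructor
  · rintro ⟨h4, h1, h2⟩
    exact ⟨h4, le_antisymm h1 h2⟩
  · rintro ⟨h4, h1⟩
    exact ⟨h4, h1.le, h1.ge⟩

/-- effect of the second list -/
private def pb2 (G : NGraph T ι) (j : T) (E : List ι) (y : Reg T ι → ℕ) : Reg T ι → ℕ
  | .cn e => if e ∈ E ∧ y (.nxt j) = y (.cn e) then y (.cn e) + G.a e else y (.cn e)
  | .cm e => if e ∈ E ∧ y (.nxt j) = y (.cn e) then y (.cm e) + G.a' e else y (.cm e)
  | r => y r

private theorem pb_second_one (G : NGraph T ι) (w : ℕ) (j : T) (e : ι) (y : Reg T ι → ℕ)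
    (h0 : y .zero = 0) (hb : y .blk = 0) (h1 : y (.cn e) + G.a e < 2 ^ w)
    (h2 : y (.cm e) + G.a' e < 2 ^ w) :
    runInstrs w (pbI2 G j e) y = pb2 G j [e] y := by
  by_cases h : y (.nxt j) = y (.cn e)
  · have h3 : runInstrs w (pbI2 G j e) y =
        Function.update (Function.update y (.cm e) (y (.cm e) + G.a' e)) (.cn e)
          (y (.cn e) + G.a e) := by
      unfold pbI2 runInstrs
      rw [List.foldl_cons, List.foldl_cons, List.foldl_nil]
      rw [pb_exec w _ y ((pbI2_holds j e _ _ y h0).2 ⟨hb, h⟩) h2]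
      simp only
      rw [pb_exec w _ _ ((pbI2_holds j e _ _ _ (by
        rw [Function.update_of_ne (by simp)]; exact h0)).2 ⟨by
        rw [Function.update_of_ne (by simp)]; exact hb, by
        rw [Function.update_of_ne (by simp), Function.update_of_ne (by simp)]; exact h⟩) (by
        simp only
        rw [Function.update_of_ne (by simp)]; exact h1)]
      simp only
      rw [Function.update_of_ne (by simp : Reg.cn e ≠ Reg.cm e)]
    rw [h3]
    funext r
    cases r with
    | cn e' =>
      by_cases he : e' = e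
      · subst he
        rw [Function.update_self]
        simp [pb2, h]
      · rw [Function.update_of_ne (by simpa using he), Function.update_of_ne (by simp)]
        simp [pb2, he]
    | cm e' =>
      rw [Function.update_of_ne (by simp)]
      by_cases he : e' = e
      · subst he
        rw [Function.update_self]
        simp [pb2, h]
      · rw [Function.update_of_ne (by simpa using he)]
        simp [pb2, he]
    | _ =>
      rw [Function.update_of_ne (by simp), Function.update_of_ne (by simp)]
      simp [pb2]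
  · have h3 : runInstrs w (pbI2 G j e) y = y := by
      refine pb_frozen w _ y fun I hI => ?_
      unfold pbI2 at hI
      rw [← Bool.not_eq_true]
      rcases List.mem_cons.1 hI with rfl | hI
      · rw [pbI2_holds j e _ _ y h0]
        exact fun h4 => h h4.2
      · rw [List.mem_singleton] at hI
        subst hI
        rw [pbI2_holds j e _ _ y h0]
        exact fun h4 => h h4.2
    rw [h3]
    funext r
    cases r with
    | cn e' =>
      by_cases he : e' = e
      · subst he
        simp [pb2, h]
      · simp [pb2, he]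
    | cm e' =>
      by_cases he : e' = e
      · subst he
        simp [pb2, h]
      · simp [pb2, he]
    | _ => simp [pb2]

private theorem pb_second (G : NGraph T ι) (w : ℕ) (j : T) (E : List ι) (hE : E.Nodup)
    (y : Reg T ι → ℕ) (h0 : y .zero = 0) (hb : y .blk = 0)
    (h1 : ∀ e ∈ E, y (.cn e) + G.a e < 2 ^ w) (h2 : ∀ e ∈ E, y (.cm e) + G.a' e < 2 ^ w) :
    runInstrs w (E.flatMap (pbI2 G j)) y = pb2 G j E y := by
  induction E generalizing y with
  | nil =>
    funext r
    cases r <;> simp [pb2, runInstrs]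
  | cons e E ih =>
    rw [List.flatMap_cons, pb_append,
      pb_second_one G w j e y h0 hb (h1 e List.mem_cons_self) (h2 e List.mem_cons_self)]
    rw [List.nodup_cons] at hE
    have hne : ∀ e' ∈ E, e' ≠ e := fun e' he' h3 => hE.1 (h3 ▸ he')
    rw [ih hE.2 (pb2 G j [e] y) h0 hb ?_ ?_]
    · funext r
      cases r with
      | cn e' =>
        by_cases he : e' = e
        · subst he
          simp [pb2, hE.1]
        · simp [pb2, he]
      | cm e' =>
        by_cases he : e' = e
        · subst he
          simp [pb2, hE.1]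
        · simp [pb2, he]
      | _ => simp [pb2]
    · intro e' he'
      have := h1 e' (List.mem_cons_of_mem _ he')
      simp only [pb2, List.mem_singleton, hne e' he', false_and, if_false]
      exact this
    · intro e' he'
      have := h2 e' (List.mem_cons_of_mem _ he')
      simp only [pb2, List.mem_singleton, hne e' he', false_and, if_false]
      exact this

open Classical in
/-- phase 2 for the tasks of a list -/
private noncomputable def ph2 (G : NGraph T ι) (L : List T) (x : Reg T ι → ℕ) : Reg T ι → ℕ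
  | .nxt j => if j ∈ L ∧ G.go x j then x (.nxt j) + 1 else x (.nxt j)
  | .rem j => if j ∈ L ∧ G.go x j then x (.rem j) + G.p j else x (.rem j)
  | .cn e => if G.d e ∈ L ∧ G.go x (G.d e) ∧ x (.nxt (G.d e)) = x (.cn e) then
      x (.cn e) + G.a e else x (.cn e)
  | .cm e => if G.d e ∈ L ∧ G.go x (G.d e) ∧ x (.nxt (G.d e)) = x (.cn e) then
      x (.cm e) + G.a' e else x (.cm e)
  | r => x r

omit [DecidableEq ι] in
private theorem ph2_nxt1 (G : NGraph T ι) (L : List T) (x : Reg T ι → ℕ) (j : T)
    (h : j ∈ L ∧ G.go x j) : ph2 G L x (.nxt j) = x (.nxt j) + 1 := if_pos h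

omit [DecidableEq ι] in
private theorem ph2_nxt2 (G : NGraph T ι) (L : List T) (x : Reg T ι → ℕ) (j : T)
    (h : ¬ (j ∈ L ∧ G.go x j)) : ph2 G L x (.nxt j) = x (.nxt j) := if_neg h

omit [DecidableEq ι] in
private theorem ph2_rem1 (G : NGraph T ι) (L : List T) (x : Reg T ι → ℕ) (j : T)
    (h : j ∈ L ∧ G.go x j) : ph2 G L x (.rem j) = x (.rem j) + G.p j := if_pos h

omit [DecidableEq ι] in
private theorem ph2_rem2 (G : NGraph T ι) (L : List T) (x : Reg T ι → ℕ) (j : T)
    (h : ¬ (j ∈ L ∧ G.go x j)) : ph2 G L x (.rem j) = x (.rem j) := if_neg h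

omit [DecidableEq ι] in
private theorem ph2_cn1 (G : NGraph T ι) (L : List T) (x : Reg T ι → ℕ) (e : ι)
    (h : G.d e ∈ L ∧ G.go x (G.d e) ∧ x (.nxt (G.d e)) = x (.cn e)) :
    ph2 G L x (.cn e) = x (.cn e) + G.a e := if_pos h

omit [DecidableEq ι] in
private theorem ph2_cn2 (G : NGraph T ι) (L : List T) (x : Reg T ι → ℕ) (e : ι)
    (h : ¬ (G.d e ∈ L ∧ G.go x (G.d e) ∧ x (.nxt (G.d e)) = x (.cn e))) :
    ph2 G L x (.cn e) = x (.cn e) := if_neg h

omit [DecidableEq ι] in
private theorem ph2_cm1 (G : NGraph T ι) (L : List T) (x : Reg T ι → ℕ) (e : ι)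
    (h : G.d e ∈ L ∧ G.go x (G.d e) ∧ x (.nxt (G.d e)) = x (.cn e)) :
    ph2 G L x (.cm e) = x (.cm e) + G.a' e := if_pos h

omit [DecidableEq ι] in
private theorem ph2_cm2 (G : NGraph T ι) (L : List T) (x : Reg T ι → ℕ) (e : ι)
    (h : ¬ (G.d e ∈ L ∧ G.go x (G.d e) ∧ x (.nxt (G.d e)) = x (.cn e))) :
    ph2 G L x (.cm e) = x (.cm e) := if_neg h

/-- the last three instructions -/
private def pbI3 (G : NGraph T ι) (w : ℕ) (j : T) : List (Instr (Reg T ι)) :=
  [⟨[(.blk, .zero, true)], .rem j, G.p j⟩, ⟨[(.blk, .zero, true)], .nxt j, 1⟩,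
   ⟨[(.one, .blk, true)], .blk, 2 ^ w - 1⟩]

omit [DecidableEq T] [DecidableEq ι] in
private theorem pb_prog2 (G : NGraph T ι) (w : ℕ) (E : List ι) (j : T) :
    prog2 G w E j = E.map (pbI1 G j) ++ E.flatMap (pbI2 G j) ++ pbI3 G w j := rfl

private theorem pb_block (G : NGraph T ι) (w : ℕ) (hw : 1 < 2 ^ w) (j : T) (Es : List ι)
    (hE : ∀ e, e ∈ Es) (hE' : Es.Nodup) (y : Reg T ι → ℕ)
    (h0 : y .zero = 0) (h1 : y .one = 1) (hb : y .blk = 0)
    (hn : y (.nxt j) + 1 < 2 ^ w) (hr : y (.rem j) + G.p j < 2 ^ w)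
    (hc : ∀ e, G.d e = j → y (.cn e) + G.a e < 2 ^ w)
    (hm : ∀ e, G.d e = j → y (.cm e) + G.a' e < 2 ^ w) :
    runInstrs w (prog2 G w (Es.filter fun e => decide (G.d e = j)) j) y = ph2 G [j] y := by
  have hmem : ∀ e, e ∈ (Es.filter fun e => decide (G.d e = j)) ↔ G.d e = j := by
    intro e
    rw [List.mem_filter, decide_eq_true_eq]
    exact ⟨fun h => h.2, fun h => ⟨hE e, h⟩⟩
  rw [pb_prog2, pb_append, pb_append]
  by_cases hgo : G.go y j
  · rw [pb_first_go G w j _ y h0 (fun e he => hgo e ((hmem e).1 he)),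
      pb_second G w j _ (hE'.filter _) y h0 hb (fun e he => hc e ((hmem e).1 he))
        (fun e he => hm e ((hmem e).1 he))]
    set E := Es.filter fun e => decide (G.d e = j) with hEdef
    set z := pb2 G j E y with hz
    have hz0 : z .zero = 0 := h0
    have hz1 : z .one = 1 := h1
    have hzb : z .blk = 0 := hb
    have hzn : z (.nxt j) = y (.nxt j) := rfl
    have hzr : z (.rem j) = y (.rem j) := rfl
    have h3 : runInstrs w (pbI3 G w j) z =
        Function.update (Function.update z (.rem j) (z (.rem j) + G.p j)) (.nxt j)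
          (z (.nxt j) + 1) := by
      unfold pbI3 runInstrs
      rw [List.foldl_cons, List.foldl_cons, List.foldl_cons, List.foldl_nil]
      rw [pb_exec w (⟨[(.blk, .zero, true)], .rem j, G.p j⟩ : Instr (Reg T ι)) z (by simp [Instr.holds, hz0, hzb])
        (by simp only; rw [hzr]; exact hr)]
      simp only
      rw [pb_exec w (⟨[(.blk, .zero, true)], .nxt j, 1⟩ : Instr (Reg T ι)) _ (by simp [Instr.holds, hz0, hzb]) (by
        simp only
        rw [Function.update_of_ne (by simp), hzn]; exact hn)]
      simp only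
      rw [Function.update_of_ne (by simp : Reg.nxt j ≠ Reg.rem j)]
      have h4 : (⟨[(.one, .blk, true)], .blk, 2 ^ w - 1⟩ : Instr (Reg T ι)).holds
          (Function.update (Function.update z (.rem j) (z (.rem j) + G.p j)) (.nxt j)
          (z (.nxt j) + 1)) = false := by
        simp [Instr.holds, hz1, hzb]
      unfold Instr.exec
      rw [h4]
      rfl
    rw [h3]
    funext r
    cases r with
    | nxt j' =>
      by_cases hj : j' = j
      · subst hj
        rw [Function.update_self, hzn]
        simp [ph2, hgo]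
      · rw [Function.update_of_ne (by simpa using hj), Function.update_of_ne (by simp)]
        simp [ph2, hj, hz, pb2]
    | rem j' =>
      rw [Function.update_of_ne (by simp)]
      by_cases hj : j' = j
      · subst hj
        rw [Function.update_self, hzr]
        simp [ph2, hgo]
      · rw [Function.update_of_ne (by simpa using hj)]
        simp [ph2, hj, hz, pb2]
    | cn e =>
      rw [Function.update_of_ne (by simp), Function.update_of_ne (by simp)]
      by_cases he : G.d e = j
      · have he' := (hmem e).2 he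
        simp only [hz, pb2, ph2, he', he, true_and, List.mem_singleton, hgo]
      · have he' : e ∉ E := fun h => he ((hmem e).1 h)
        simp only [hz, pb2, ph2, he', he, false_and, if_false, List.mem_singleton]
    | cm e =>
      rw [Function.update_of_ne (by simp), Function.update_of_ne (by simp)]
      by_cases he : G.d e = j
      · have he' := (hmem e).2 he
        simp only [hz, pb2, ph2, he', he, true_and, List.mem_singleton, hgo]
      · have he' : e ∉ E := fun h => he ((hmem e).1 h)
        simp only [hz, pb2, ph2, he', he, false_and, if_false, List.mem_singleton]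
    | _ =>
      rw [Function.update_of_ne (by simp), Function.update_of_ne (by simp)]
      simp [hz, pb2, ph2]
  · have hblock : ∃ e ∈ (Es.filter fun e => decide (G.d e = j)),
        y (.nxt j) = y (.cn e) ∧ ¬ y (.cm e) ≤ y (.don (G.s e)) := by
      by_contra hcon
      push Not at hcon
      exact hgo fun e he h2 => hcon e ((hmem e).2 he) h2
    rw [pb_first_block G w hw j _ y h0 hb hblock]
    set z := Function.update y .blk 1 with hz
    have hz0 : z .zero = 0 := by rw [hz, Function.update_of_ne (by simp)]; exact h0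
    have hz1 : z .one = 1 := by rw [hz, Function.update_of_ne (by simp)]; exact h1
    have hzb : z .blk = 1 := by rw [hz, Function.update_self]
    have h2 : runInstrs w ((Es.filter fun e => decide (G.d e = j)).flatMap (pbI2 G j)) z = z := by
      refine pb_frozen w _ z fun I hI => ?_
      obtain ⟨e, _, he⟩ := List.mem_flatMap.1 hI
      unfold pbI2 at he
      rw [← Bool.not_eq_true]
      rcases List.mem_cons.1 he with rfl | he
      · rw [pbI2_holds j e _ _ z hz0, hzb]
        exact fun h4 => one_ne_zero h4.1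
      · rw [List.mem_singleton] at he
        subst he
        rw [pbI2_holds j e _ _ z hz0, hzb]
        exact fun h4 => one_ne_zero h4.1
    rw [h2]
    have h3 : runInstrs w (pbI3 G w j) z = y := by
      unfold pbI3 runInstrs
      rw [List.foldl_cons, List.foldl_cons, List.foldl_cons, List.foldl_nil]
      have h4 : (⟨[(.blk, .zero, true)], .rem j, G.p j⟩ : Instr (Reg T ι)).exec w z = z := by
        have h5 : (⟨[(.blk, .zero, true)], .rem j, G.p j⟩ : Instr (Reg T ι)).holds z = false := by
          simp [Instr.holds, hz0, hzb]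
        unfold Instr.exec
        rw [h5]
        rfl
      have h6 : (⟨[(.blk, .zero, true)], .nxt j, 1⟩ : Instr (Reg T ι)).exec w z = z := by
        have h5 : (⟨[(.blk, .zero, true)], .nxt j, 1⟩ : Instr (Reg T ι)).holds z = false := by
          simp [Instr.holds, hz0, hzb]
        unfold Instr.exec
        rw [h5]
        rfl
      rw [h4, h6]
      have h7 : (⟨[(.one, .blk, true)], .blk, 2 ^ w - 1⟩ : Instr (Reg T ι)).holds z = true := by
        simp [Instr.holds, hz1, hzb]
      unfold Instr.exec
      rw [h7, if_pos rfl]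
      simp only
      rw [hzb, show 1 + (2 ^ w - 1) = 2 ^ w by omega, Nat.mod_self, hz, Function.update_idem,
        ← hb, Function.update_eq_self]
    rw [h3]
    funext r
    cases r with
    | nxt j' =>
      by_cases hj : j' = j
      · subst hj
        simp [ph2, hgo]
      · simp [ph2, hj]
    | rem j' =>
      by_cases hj : j' = j
      · subst hj
        simp [ph2, hgo]
      · simp [ph2, hj]
    | cn e =>
      by_cases he : G.d e = j
      · simp [ph2, he, hgo]
      · simp [ph2, he]
    | cm e =>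
      by_cases he : G.d e = j
      · simp [ph2, he, hgo]
      · simp [ph2, he]
    | _ => simp [ph2]

omit [DecidableEq ι] in
private theorem pb_go (G : NGraph T ι) (j : T) (x : Reg T ι → ℕ) {j' : T} (hj : j' ≠ j) :
    G.go (ph2 G [j] x) j' ↔ G.go x j' := by
  unfold NGraph.go
  refine forall_congr' fun e => ?_
  refine imp_congr_right fun he => ?_
  have h1 : ph2 G [j] x (.nxt j') = x (.nxt j') := by simp [ph2, hj]
  have h2 : ph2 G [j] x (.cn e) = x (.cn e) := by simp [ph2, he, hj]
  have h3 : ph2 G [j] x (.cm e) = x (.cm e) := by simp [ph2, he, hj]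
  have h4 : ph2 G [j] x (.don (G.s e)) = x (.don (G.s e)) := rfl
  rw [h1, h2, h3, h4]

private theorem pb_list (G : NGraph T ι) (w : ℕ) (hw : 1 < 2 ^ w) (Es : List ι)
    (hE : ∀ e, e ∈ Es) (hE' : Es.Nodup) (L : List T) (hL : L.Nodup) (x : Reg T ι → ℕ)
    (h0 : x .zero = 0) (h1 : x .one = 1) (hb : x .blk = 0)
    (hn : ∀ j ∈ L, x (.nxt j) + 1 < 2 ^ w) (hr : ∀ j ∈ L, x (.rem j) + G.p j < 2 ^ w)
    (hc : ∀ e, G.d e ∈ L → x (.cn e) + G.a e < 2 ^ w)
    (hm : ∀ e, G.d e ∈ L → x (.cm e) + G.a' e < 2 ^ w) :
    runInstrs w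
      (L.flatMap fun j => prog2 G w (Es.filter fun e => decide (G.d e = j)) j) x =
      ph2 G L x := by
  induction L generalizing x with
  | nil =>
    funext r
    cases r <;> simp [ph2, runInstrs]
  | cons j L ih =>
    rw [List.nodup_cons] at hL
    rw [List.flatMap_cons, pb_append, pb_block G w hw j Es hE hE' x h0 h1 hb
      (hn j List.mem_cons_self) (hr j List.mem_cons_self)
      (fun e he => hc e (by rw [he]; exact List.mem_cons_self))
      (fun e he => hm e (by rw [he]; exact List.mem_cons_self))]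
    have hne : ∀ j' ∈ L, j' ≠ j := fun j' hj' h => hL.1 (h ▸ hj')
    rw [ih hL.2 (ph2 G [j] x) h0 h1 hb ?_ ?_ ?_ ?_]
    · funext r
      have hjj : j ∈ [j] := List.mem_singleton.2 rfl
      have hjc : j ∈ j :: L := List.mem_cons_self
      cases r with
      | nxt j' =>
        by_cases hj : j' = j
        · subst hj
          rw [ph2_nxt2 G L _ j' (fun h => hL.1 h.1)]
          by_cases hg : G.go x j'
          · rw [ph2_nxt1 G _ x j' ⟨hjj, hg⟩, ph2_nxt1 G _ x j' ⟨hjc, hg⟩]
          · rw [ph2_nxt2 G _ x j' (fun h => hg h.2), ph2_nxt2 G _ x j' (fun h => hg h.2)]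
        · have h2 := pb_go G j x hj
          have h3 := ph2_nxt2 G [j] x j' (fun h => hj (List.mem_singleton.1 h.1))
          by_cases hg : j' ∈ L ∧ G.go x j'
          · rw [ph2_nxt1 G L _ j' ⟨hg.1, h2.2 hg.2⟩, h3,
              ph2_nxt1 G _ x j' ⟨List.mem_cons_of_mem _ hg.1, hg.2⟩]
          · rw [ph2_nxt2 G L _ j' (fun h => hg ⟨h.1, h2.1 h.2⟩), h3,
              ph2_nxt2 G _ x j' (fun h => hg ⟨List.mem_of_ne_of_mem hj h.1, h.2⟩)]
      | rem j' =>
        by_cases hj : j' = j
        · subst hj
          rw [ph2_rem2 G L _ j' (fun h => hL.1 h.1)]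
          by_cases hg : G.go x j'
          · rw [ph2_rem1 G _ x j' ⟨hjj, hg⟩, ph2_rem1 G _ x j' ⟨hjc, hg⟩]
          · rw [ph2_rem2 G _ x j' (fun h => hg h.2), ph2_rem2 G _ x j' (fun h => hg h.2)]
        · have h2 := pb_go G j x hj
          have h3 := ph2_rem2 G [j] x j' (fun h => hj (List.mem_singleton.1 h.1))
          by_cases hg : j' ∈ L ∧ G.go x j'
          · rw [ph2_rem1 G L _ j' ⟨hg.1, h2.2 hg.2⟩, h3,
              ph2_rem1 G _ x j' ⟨List.mem_cons_of_mem _ hg.1, hg.2⟩]
          · rw [ph2_rem2 G L _ j' (fun h => hg ⟨h.1, h2.1 h.2⟩), h3,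
              ph2_rem2 G _ x j' (fun h => hg ⟨List.mem_of_ne_of_mem hj h.1, h.2⟩)]
      | cn e =>
        by_cases hj : G.d e = j
        · rw [ph2_cn2 G L _ e (fun h => hL.1 (hj ▸ h.1))]
          by_cases hg : G.go x (G.d e) ∧ x (.nxt (G.d e)) = x (.cn e)
          · rw [ph2_cn1 G _ x e ⟨by rw [hj]; exact hjj, hg⟩,
              ph2_cn1 G _ x e ⟨by rw [hj]; exact hjc, hg⟩]
          · rw [ph2_cn2 G _ x e (fun h => hg h.2), ph2_cn2 G _ x e (fun h => hg h.2)]
        · have h2 := pb_go G j x hj
          have h3 := ph2_cn2 G [j] x e (fun h => hj (List.mem_singleton.1 h.1))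
          have h4 := ph2_nxt2 G [j] x (G.d e) (fun h => hj (List.mem_singleton.1 h.1))
          by_cases hg : G.d e ∈ L ∧ G.go x (G.d e) ∧ x (.nxt (G.d e)) = x (.cn e)
          · rw [ph2_cn1 G L _ e ⟨hg.1, h2.2 hg.2.1, by rw [h3, h4]; exact hg.2.2⟩, h3,
              ph2_cn1 G _ x e ⟨List.mem_cons_of_mem _ hg.1, hg.2⟩]
          · rw [ph2_cn2 G L _ e (fun h => hg ⟨h.1, h2.1 h.2.1, by
                have := h.2.2
                rwa [h3, h4] at this⟩), h3,
              ph2_cn2 G _ x e (fun h => hg ⟨List.mem_of_ne_of_mem hj h.1, h.2⟩)]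
      | cm e =>
        by_cases hj : G.d e = j
        · rw [ph2_cm2 G L _ e (fun h => hL.1 (hj ▸ h.1))]
          by_cases hg : G.go x (G.d e) ∧ x (.nxt (G.d e)) = x (.cn e)
          · rw [ph2_cm1 G _ x e ⟨by rw [hj]; exact hjj, hg⟩,
              ph2_cm1 G _ x e ⟨by rw [hj]; exact hjc, hg⟩]
          · rw [ph2_cm2 G _ x e (fun h => hg h.2), ph2_cm2 G _ x e (fun h => hg h.2)]
        · have h2 := pb_go G j x hj
          have h3 := ph2_cn2 G [j] x e (fun h => hj (List.mem_singleton.1 h.1))
          have h5 := ph2_cm2 G [j] x e (fun h => hj (List.mem_singleton.1 h.1))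
          have h4 := ph2_nxt2 G [j] x (G.d e) (fun h => hj (List.mem_singleton.1 h.1))
          by_cases hg : G.d e ∈ L ∧ G.go x (G.d e) ∧ x (.nxt (G.d e)) = x (.cn e)
          · rw [ph2_cm1 G L _ e ⟨hg.1, h2.2 hg.2.1, by rw [h3, h4]; exact hg.2.2⟩, h5,
              ph2_cm1 G _ x e ⟨List.mem_cons_of_mem _ hg.1, hg.2⟩]
          · rw [ph2_cm2 G L _ e (fun h => hg ⟨h.1, h2.1 h.2.1, by
                have := h.2.2
                rwa [h3, h4] at this⟩), h5,
              ph2_cm2 G _ x e (fun h => hg ⟨List.mem_of_ne_of_mem hj h.1, h.2⟩)]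
      | _ => rfl
    · intro j' hj'
      have := hn j' (List.mem_cons_of_mem _ hj')
      simpa [ph2, hne j' hj'] using this
    · intro j' hj'
      have := hr j' (List.mem_cons_of_mem _ hj')
      simpa [ph2, hne j' hj'] using this
    · intro e he
      have := hc e (List.mem_cons_of_mem _ he)
      simpa [ph2, hne _ he] using this
    · intro e he
      have := hm e (List.mem_cons_of_mem _ he)
      simpa [ph2, hne _ he] using this

theorem run_phase2 (G : NGraph T ι) (w K : ℕ) (Ts : List T) (hT : ∀ j, j ∈ Ts)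
    (hT' : Ts.Nodup) (Es : List ι) (hE : ∀ e, e ∈ Es) (hE' : Es.Nodup)
    (hK : 1 ≤ K) (hp : ∀ j, G.p j ≤ K) (ha : ∀ e, G.a e ≤ K) (ha' : ∀ e, G.a' e ≤ K)
    (x : Reg T ι → ℕ) (h0 : x .zero = 0) (h1 : x .one = 1) (hb : x .blk = 0)
    (hw : ∀ r, x r + K < 2 ^ w) :
    runInstrs w
      (Ts.flatMap fun j => prog2 G w (Es.filter fun e => decide (G.d e = j)) j) x =
      phase2 G x := by
  have hw1 : 1 < 2 ^ w := by
    have := hw .one
    rw [h1] at this
    omega
  rw [pb_list G w hw1 Es hE hE' Ts hT' x h0 h1 hb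
    (fun j _ => by have := hw (.nxt j); omega)
    (fun j _ => by have := hw (.rem j); have := hp j; omega)
    (fun e _ => by have := hw (.cn e); have := ha e; omega)
    (fun e _ => by have := hw (.cm e); have := ha' e; omega)]
  funext r
  cases r with
  | nxt j =>
    by_cases hg : G.go x j
    · rw [ph2_nxt1 G Ts x j ⟨hT j, hg⟩]
      exact (if_pos hg).symm
    · rw [ph2_nxt2 G Ts x j (fun h => hg h.2)]
      exact (if_neg hg).symm
  | rem j =>
    by_cases hg : G.go x j
    · rw [ph2_rem1 G Ts x j ⟨hT j, hg⟩]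
      exact (if_pos hg).symm
    · rw [ph2_rem2 G Ts x j (fun h => hg h.2)]
      exact (if_neg hg).symm
  | cn e =>
    by_cases hg : G.go x (G.d e) ∧ x (.nxt (G.d e)) = x (.cn e)
    · rw [ph2_cn1 G Ts x e ⟨hT _, hg⟩]
      exact (if_pos hg).symm
    · rw [ph2_cn2 G Ts x e (fun h => hg h.2)]
      exact (if_neg hg).symm
  | cm e =>
    by_cases hg : G.go x (G.d e) ∧ x (.nxt (G.d e)) = x (.cn e)
    · rw [ph2_cm1 G Ts x e ⟨hT _, hg⟩]
      exact (if_pos hg).symm
    · rw [ph2_cm2 G Ts x e (fun h => hg h.2)]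
      exact (if_neg hg).symm
  | _ => rfl

end Pool.Agent.LinSched
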