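import Pool.Agent.Lib.MP_b03ab8_lc.B.Comp
import Pool.Agent.Lib.MP_b03ab8_lc.B.PhaseA
import Pool.Agent.Lib.MP_b03ab8_lc.B.PhaseB
import Pool.Agent.Lib.MP_b03ab8_lc.B.Inv

/-!
# Module B.Acc: when does the machine accept?

PROOF. Let `R = 2 ^ (G.size + 1)`, `z = thrZ R a b`, `θ = thrT R a`, `w = thrW R a b`; by
`Nat.lt_size_self`, `V = R ^ 3 + R (z + 4) + θ < 2 ^ (w - 1)`. Let `P` be the register program,
`x_k = (runInstrs w P)^[k] (regInit ...)`. By `compile_run` and induction on `k`, the memory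
after `k` executions is `enc w x_k sc_k` for some `sc_k` (all initial values are `≤ V`), so the
output bit is `(x_k .acc).testBit 0`.
For `k ≤ z + 1`: `Inv τ z θ k x_k` and `x_k .acc = 1` if (`k ≥ 1` and `θ ≤ 1`) or
(`θ ≥ 2` and `τ i (θ - 1) < k`), `= 0` otherwise. Induction: all values are `≤ V - R`-ish:
`x_k r ≤ R ^ 3 + R (k + 1)` (`inv_bound`), or `z`, `θ`, `acc ≤ 1`, so `x_k r + R < 2 ^ w`;
`prog` is the concatenation of the three phases (`List.foldl_append`): `run_phase1`,
`run_phase2` (`K = R`) for `phase1 x_k` (its values are `≤ x_k r + 1`; use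
`2 V < 2 ^ w` generously), `run_phase3`; `inv_step` and `inv_acc`.
(`Ts = List.finRange N`, `Es = List.finRange _`: `List.mem_finRange`, `List.nodup_finRange`.)
For `k ≥ z + 1`: `x_k .clock = z + 1`, `x_k .zmax = z`, `x_k .acc = x_{z + 1} .acc`
(`run_frozen`).
So the machine accepts iff `x_{z + 1} .acc = 1` iff `θ ≤ 1` or `τ i (θ - 1) ≤ z`.
-/

open Finset

namespace Pool.Agent.LinSched

private theorem ac_append {ρ : Type} [DecidableEq ρ] (w : ℕ) (P Q : List (Instr ρ)) (x : ρ → ℕ) :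
    runInstrs w (P ++ Q) x = runInstrs w Q (runInstrs w P x) := by
  unfold runInstrs
  rw [List.foldl_append]

private theorem ac_phase1 {T ι : Type} [DecidableEq T] (x : Reg T ι → ℕ) (r : Reg T ι) :
    phase1 x r ≤ x r + 1 := by
  cases r <;> simp only [phase1]
  all_goals try split_ifs
  all_goals omega

private theorem ac_phase2 {T ι : Type} [DecidableEq T] {G : NGraph T ι} {K : ℕ} (hK : 1 ≤ K)
    (hp : ∀ j, G.p j ≤ K) (ha : ∀ e, G.a e ≤ K) (ha' : ∀ e, G.a' e ≤ K)
    (x : Reg T ι → ℕ) (r : Reg T ι) : phase2 G x r ≤ x r + K := by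
  cases r with
  | zero => exact Nat.le_add_right _ _
  | one => exact Nat.le_add_right _ _
  | zmax => exact Nat.le_add_right _ _
  | theta => exact Nat.le_add_right _ _
  | clock => exact Nat.le_add_right _ _
  | blk => exact Nat.le_add_right _ _
  | acc => exact Nat.le_add_right _ _
  | nxt j =>
    simp only [phase2]
    split_ifs <;> omega
  | don j => exact Nat.le_add_right _ _
  | rem j =>
    simp only [phase2]
    have := hp j
    split_ifs <;> omega
  | cn e =>
    simp only [phase2]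
    have := ha e
    split_ifs <;> omega
  | cm e =>
    simp only [phase2]
    have := ha' e
    split_ifs <;> omega

private theorem ac_bound {T ι : Type} [DecidableEq T] [Fintype T] [Fintype ι] {G : NGraph T ι}
    {τ : T → ℕ → ℕ} (hG : G.Ok) (hτ : G.IsTau τ) {R : ℕ} (hR : G.Bnd R) (z θ Z : ℕ) (hZ : Z ≤ z)
    (x : Reg T ι → ℕ) (h : G.Inv τ z θ Z x) (hacc : x .acc ≤ 1) (r : Reg T ι) :
    x r ≤ R ^ 3 + R * (z + 1) + θ := by
  have hR2 := hR.two_le
  have h1 : R * (Z + 1) ≤ R * (z + 1) := Nat.mul_le_mul_left _ (by omega)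
  have h2 : z + 1 ≤ R * (z + 1) := Nat.le_mul_of_pos_left _ (by omega)
  by_cases e1 : r = .zmax
  · rw [e1, h.zmax]
    omega
  by_cases e2 : r = .theta
  · rw [e2, h.theta]
    omega
  by_cases e3 : r = .acc
  · rw [e3]
    omega
  have h3 := inv_bound hG hτ hR z θ Z x h r e1 e2 e3
  omega

private theorem ac_step {T ι : Type} [DecidableEq T] [DecidableEq ι] [Fintype T] [Fintype ι]
    {G : NGraph T ι}
    {τ : T → ℕ → ℕ} (hG : G.Ok) (hτ : G.IsTau τ) {R : ℕ} (hR : G.Bnd R) (w z θ Z : ℕ)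
    (hw : R ^ 3 + R * (z + 4) + θ < 2 ^ w) (hZ : Z ≤ z)
    (Ts : List T) (hT : ∀ j, j ∈ Ts) (hT' : Ts.Nodup)
    (Es : List ι) (hE : ∀ e, e ∈ Es) (hE' : Es.Nodup) (i : T)
    (x : Reg T ι → ℕ) (h : G.Inv τ z θ Z x) (hacc : x .acc ≤ 1) :
    runInstrs w (prog G w Ts Es i) x = phase3 i (phase2 G (phase1 x)) := by
  have hR2 := hR.two_le
  have hb := ac_bound hG hτ hR z θ Z hZ x h hacc
  have hV : R ^ 3 + R * (z + 4) + θ = R ^ 3 + R * (z + 1) + θ + 3 * R := by ring
  rw [hV] at hw
  unfold prog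
  rw [ac_append, ac_append, run_phase1 w Ts hT hT' x h.one (fun r => by
    have := hb r
    omega), run_phase2 G w R Ts hT hT' Es hE hE' (by omega) hR.p_le hR.a_le hR.a'_le (phase1 x)
      h.zero h.one h.blk (fun r => by
        have h1 := hb r
        have h2 := ac_phase1 x r
        omega), run_phase3 w i _ (fun r => by
        have h1 := hb r
        have h2 := ac_phase1 x r
        have h3 := ac_phase2 (by omega) hR.p_le hR.a_le hR.a'_le (phase1 x) r
        omega)]

theorem accepts_iff {N : ℕ} (G : LinGraph (Fin N)) (hG : G.norm.Ok)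
    (hR : G.norm.Bnd (2 ^ (G.size + 1))) {τ : Fin N → ℕ → ℕ} (hτ : G.norm.IsTau τ)
    (i : Fin N) (a b : ℕ) :
    (G.machine i a b).Accepts ↔
      (thrT (2 ^ (G.size + 1)) a ≤ 1 ∨
        τ i (thrT (2 ^ (G.size + 1)) a - 1) ≤ thrZ (2 ^ (G.size + 1)) a b) := by
  obtain ⟨w, hwdef⟩ : ∃ w, w = thrW (2 ^ (G.size + 1)) a b := ⟨_, rfl⟩
  have hw : (2 ^ (G.size + 1)) ^ 3 + (2 ^ (G.size + 1)) * (thrZ (2 ^ (G.size + 1)) a b + 4) +
      thrT (2 ^ (G.size + 1)) a < 2 ^ w := by
    rw [hwdef]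
    unfold thrW
    rw [pow_succ 2 (Nat.size _)]
    have h1 := Nat.lt_size_self ((2 ^ (G.size + 1)) ^ 3 + (2 ^ (G.size + 1)) *
      (thrZ (2 ^ (G.size + 1)) a b + 4) + thrT (2 ^ (G.size + 1)) a)
    omega
  obtain ⟨P, hP⟩ : ∃ P : List (Instr (Reg (Fin N) (Fin G.arcs.length))),
    P = prog G.norm w (List.finRange N) (List.finRange G.arcs.length) i := ⟨_, rfl⟩
  obtain ⟨X, hX⟩ : ∃ X : ℕ → Reg (Fin N) (Fin G.arcs.length) → ℕ, ∀ k, X k =
    (runInstrs w P)^[k] (regInit G.norm (thrZ (2 ^ (G.size + 1)) a b)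
      (thrT (2 ^ (G.size + 1)) a)) := ⟨fun k => _, fun _ => rfl⟩
  have hmem : (G.machine i a b).Accepts ↔ ∃ k, (X k .acc).testBit 0 = true := by
    have h0 : ∀ r, X 0 r < 2 ^ w := by
      intro r
      have h1 := inv_init hG hτ (thrZ (2 ^ (G.size + 1)) a b) (thrT (2 ^ (G.size + 1)) a)
      have h2 := ac_bound hG hτ hR _ _ 0 (Nat.zero_le _) _ h1 (by
        show (0 : ℕ) ≤ 1
        omega) r
      rw [hX]
      refine lt_of_le_of_lt (h2.trans ?_) hw
      have h3 : (2 ^ (G.size + 1)) * (thrZ (2 ^ (G.size + 1)) a b + 1) ≤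
        (2 ^ (G.size + 1)) * (thrZ (2 ^ (G.size + 1)) a b + 4) :=
        Nat.mul_le_mul_left _ (by omega)
      omega
    have h1 : ∀ k, (∃ sc, (runGates (compile w P))^[k] (enc w (X 0) fun _ => false) =
        enc w (X k) sc) ∧ ∀ r, X k r < 2 ^ w := by
      intro k
      induction k with
      | zero => exact ⟨⟨fun _ => false, rfl⟩, h0⟩
      | succ k ih =>
        obtain ⟨⟨sc, h2⟩, h3⟩ := ih
        obtain ⟨⟨sc', h4⟩, h5⟩ := compile_run w P (X k) h3 sc
        have h6 : X (k + 1) = runInstrs w P (X k) := by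
          rw [hX, hX, Function.iterate_succ_apply']
        refine ⟨⟨sc', ?_⟩, ?_⟩
        · rw [Function.iterate_succ_apply', h2, h4, h6]
        · rw [h6]
          exact h5
    have h2 : ∀ k, ((runGates (G.machine i a b).prog)^[k] (G.machine i a b).init)
        (G.machine i a b).out = (X k .acc).testBit 0 := by
      intro k
      obtain ⟨⟨sc, h3⟩, -⟩ := h1 k
      rw [hX 0] at h3
      subst hP
      subst hwdef
      exact congrFun h3 (Sum.inl (.acc, ⟨0, Nat.succ_pos _⟩))
    unfold BitMachine.Accepts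
    exact exists_congr fun k => by rw [h2]
  rw [hmem]
  clear hmem
  generalize thrZ (2 ^ (G.size + 1)) a b = z at *
  generalize thrT (2 ^ (G.size + 1)) a = θ at *
  have hsucc : ∀ k, X (k + 1) = runInstrs w P (X k) := fun k => by
    rw [hX, hX, Function.iterate_succ_apply']
  have key : ∀ k ≤ z + 1, G.norm.Inv τ z θ k (X k) ∧ X k .acc ≤ 1 ∧
      (X k .acc = 1 ↔ ∃ Z < k, (θ ≤ 1 ∨ τ i (θ - 1) ≤ Z)) := by
    intro k
    induction k with
    | zero =>
      intro _
      have h1 : X 0 .acc = 0 := by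
        rw [hX]
        rfl
      refine ⟨?_, by omega, ?_⟩
      · rw [hX]
        exact inv_init hG hτ z θ
      · rw [h1]
        constructor
        · intro h
          omega
        · rintro ⟨Z, hZ, -⟩
          omega
    | succ k ih =>
      intro hk
      obtain ⟨h1, h2, h3⟩ := ih (by omega)
      have h4 : X (k + 1) = phase3 i (phase2 G.norm (phase1 (X k))) := by
        rw [hsucc, hP]
        exact ac_step hG hτ hR w z θ k hw (by omega) _ (List.mem_finRange) (List.nodup_finRange _)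
          _ (List.mem_finRange) (List.nodup_finRange _) i _ h1 h2
      have h5 := inv_acc hG hτ z θ k (by omega) i (X k) h1
      rw [← h4] at h5
      refine ⟨?_, ?_, ?_⟩
      · rw [h4]
        exact inv_step hG hτ z θ k (by omega) i _ h1
      · rw [h5]
        split_ifs <;> omega
      · rw [h5]
        by_cases hc : (θ ≤ 1 ∨ τ i (θ - 1) ≤ k)
        · have h6 : (if (θ ≤ 1 ∨ τ i (θ - 1) ≤ k) ∧ X k .acc = 0 then 1 else X k .acc) = 1 := by
            split_ifs with h7
            · rfl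
            · have h8 : X k .acc ≠ 0 := fun h => h7 ⟨hc, h⟩
              omega
          rw [h6]
          exact ⟨fun _ => ⟨k, by omega, hc⟩, fun _ => rfl⟩
        · rw [if_neg (fun h => hc h.1), h3]
          constructor
          · rintro ⟨Z, hZ, h⟩
            exact ⟨Z, by omega, h⟩
          · rintro ⟨Z, hZ, h⟩
            refine ⟨Z, ?_, h⟩
            rcases Nat.lt_succ_iff_lt_or_eq.1 hZ with h7 | h7
            · exact h7
            · rw [h7] at h
              exact absurd h hc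
  have hfro : ∀ d, X (z + 1 + d) .clock = z + 1 ∧ X (z + 1 + d) .zmax = z ∧
      X (z + 1 + d) .acc = X (z + 1) .acc := by
    intro d
    induction d with
    | zero =>
      have h1 := (key (z + 1) le_rfl).1
      exact ⟨h1.clock, h1.zmax, rfl⟩
    | succ d ih =>
      obtain ⟨h1, h2, h3⟩ := ih
      have h4 := run_frozen G.norm w (List.finRange N) (List.finRange G.arcs.length) i
        (X (z + 1 + d)) (by rw [h1, h2]; omega)
      rw [← hP, ← hsucc] at h4
      exact ⟨h4.1.trans h1, h4.2.1.trans h2, h4.2.2.trans h3⟩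
  have hbit : ∀ m : ℕ, m ≤ 1 → (m.testBit 0 = true ↔ m = 1) := by
    intro m hm
    interval_cases m <;> simp
  constructor
  · rintro ⟨k, hk⟩
    have h1 : ∃ Z ≤ z, (θ ≤ 1 ∨ τ i (θ - 1) ≤ Z) := by
      rcases le_total k (z + 1) with h | h
      · obtain ⟨-, h2, h3⟩ := key k h
        obtain ⟨Z, hZ, h4⟩ := h3.1 ((hbit _ h2).1 hk)
        exact ⟨Z, by omega, h4⟩
      · obtain ⟨d, rfl⟩ := Nat.exists_eq_add_of_le h
        rw [(hfro d).2.2] at hk
        obtain ⟨-, h2, h3⟩ := key (z + 1) le_rfl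
        obtain ⟨Z, hZ, h4⟩ := h3.1 ((hbit _ h2).1 hk)
        exact ⟨Z, by omega, h4⟩
    obtain ⟨Z, hZ, h2⟩ := h1
    rcases h2 with h2 | h2
    · exact Or.inl h2
    · exact Or.inr (h2.trans hZ)
  · intro h
    obtain ⟨-, h2, h3⟩ := key (z + 1) le_rfl
    exact ⟨z + 1, (hbit _ h2).2 (h3.2 ⟨z, by omega, h⟩)⟩

end Pool.Agent.LinSched
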