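import Pool.Agent.Lib.MP_b03ab8_lc.BDefs

/-!
# Module B.Comp: the compiled program executes the register program

PROOF. Everything is a fold over a list of gates, each of which changes one bit.
(1) `cmpGates w r s`, started in `enc w x sc`: ends in `enc w x sc'` where `sc' 1 = decide (x r ≤ x s)`
and the other scratch bits are unchanged. Invariant after the gates for the bits `< i`: scratch
bit `1` is `decide (x r % 2 ^ i ≤ x s % 2 ^ i)`; step: `x % 2 ^ (i + 1) = x % 2 ^ i + 2 ^ i * bit i`
(`Nat.mod_two_pow_succ`); if the bits `i` are equal the comparison does not change, otherwise it is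
decided by bit `i`. At the end `i = w` and `x r % 2 ^ w = x r`.
(`List.finRange w` can be processed by induction on the number `i` of processed elements; or
replace the fold by a fold over `List.range`; `List.finRange_succ_last`.)
(2) `condGates w c`: additionally scratch bit `0` becomes `g && (decide (x r ≤ x s) == pol)`.
The list of all conditions: scratch bit `0` becomes `I.holds x`, if it starts with `true`.
(3) `addGates w tgt k`, scratch bit `0` equal to `g`: let `k' = if g then k else 0`. Invariant
after the bits `< i`: the bits `< i` of `tgt` are those of `x tgt + k'`, the bits `≥ i` are those of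
`x tgt`, scratch bit `1` is the carry `decide (2 ^ i ≤ x tgt % 2 ^ i + k' % 2 ^ i)`. Step: the three
gates compute the majority of `(x tgt).testBit i`, `k'.testBit i` and the carry into scratch
bit `2`, the sum bit into the target, and copy scratch bit `2` to scratch bit `1`. (Bit
arithmetic: `BitVec.getLsbD_add`, `BitVec.carry_succ`, `BitVec.carry` for `BitVec.ofNat`; or
directly with `Nat.testBit` and `a % 2 ^ (i + 1) = a % 2 ^ i + 2 ^ i * bit`.) At the end: the
target holds the bits `< w` of `x tgt + k'`, the bits of `(x tgt + k') % 2 ^ w`; for `g = false`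
this is `x tgt % 2 ^ w = x tgt`.
So an instruction is executed correctly; `compile` is a `flatMap`, induction on the list;
`(...) % 2 ^ w < 2 ^ w`.
-/

open Finset

namespace Pool.Agent.LinSched

variable {ρ : Type} [DecidableEq ρ]

/-! ### Folds over lists of gates -/

private theorem rg_append {V : Type} [DecidableEq V] (l l' : List (Gate V)) (x : V → Bool) :
    runGates (l ++ l') x = runGates l' (runGates l x) := List.foldl_append

private theorem rg_cons {V : Type} [DecidableEq V] (g : Gate V) (l : List (Gate V))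
    (x : V → Bool) : runGates (g :: l) x = runGates l (g.exec x) := rfl

private theorem rg_nil {V : Type} [DecidableEq V] (x : V → Bool) :
    runGates ([] : List (Gate V)) x = x := rfl

private theorem rg_list {V : Type} [DecidableEq V] {w : ℕ} (L : Fin w → List (Gate V))
    (S : ℕ → V → Bool) (h : ∀ i : Fin w, runGates (L i) (S i) = S (i + 1)) :
    ∀ (l : List (Fin w)) (a : ℕ), l.map Fin.val = List.range' a l.length →
      runGates (l.flatMap L) (S a) = S (a + l.length)
  | [], _, _ => rfl
  | i :: l, a, hl => by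
    have h1 : (i : ℕ) = a ∧ l.map Fin.val = List.range' (a + 1) l.length := by
      simpa [List.range'_succ] using hl
    have h2 := rg_list L S h l (a + 1) h1.2
    have h3 := h i
    rw [h1.1] at h3
    rw [List.flatMap_cons, rg_append, h3, h2, List.length_cons]
    congr 1
    omega

private theorem rg_finRange {V : Type} [DecidableEq V] {w : ℕ} (L : Fin w → List (Gate V))
    (S : ℕ → V → Bool) (h : ∀ i : Fin w, runGates (L i) (S i) = S (i + 1)) :
    runGates ((List.finRange w).flatMap L) (S 0) = S w := by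
  have h1 := rg_list L S h (List.finRange w) 0 (by
    rw [List.map_coe_finRange_eq_range, List.length_finRange, List.range_eq_range'])
  rw [List.length_finRange, Nat.zero_add] at h1
  exact h1

/-! ### Bits -/

private theorem tb_mod (y i : ℕ) : y % 2 ^ (i + 1) = y % 2 ^ i + 2 ^ i * (y.testBit i).toNat := by
  rw [Nat.mod_pow_succ, Nat.toNat_testBit]

private theorem tb_dec (y i : ℕ) : y.testBit i = decide (2 ^ i ≤ y % 2 ^ (i + 1)) := by
  have h1 := tb_mod y i
  have h2 : y % 2 ^ i < 2 ^ i := Nat.mod_lt _ (Nat.two_pow_pos i)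
  rw [h1]
  rcases y.testBit i with _ | _
  · rw [Bool.toNat_false, mul_zero, add_zero, eq_comm, decide_eq_false_iff_not]
    omega
  · rw [Bool.toNat_true, mul_one, eq_comm, decide_eq_true_iff]
    omega

/-- one step of the comparison -/
private theorem tb_cmp (X Y i : ℕ) :
    (if X.testBit i == Y.testBit i then decide (X % 2 ^ i ≤ Y % 2 ^ i) else Y.testBit i) =
      decide (X % 2 ^ (i + 1) ≤ Y % 2 ^ (i + 1)) := by
  have h1 := tb_mod X i
  have h2 := tb_mod Y i
  have h3 : X % 2 ^ i < 2 ^ i := Nat.mod_lt _ (Nat.two_pow_pos i)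
  have h4 : Y % 2 ^ i < 2 ^ i := Nat.mod_lt _ (Nat.two_pow_pos i)
  rw [h1, h2]
  rcases X.testBit i with _ | _ <;> rcases Y.testBit i with _ | _
  · simp
  · simp
    omega
  · simp
    omega
  · simp

/-- the carry -/
private theorem tb_carry (X K i : ℕ) :
    ((X.testBit i && K.testBit i) || (X.testBit i && decide (2 ^ i ≤ X % 2 ^ i + K % 2 ^ i)) ||
      (K.testBit i && decide (2 ^ i ≤ X % 2 ^ i + K % 2 ^ i))) =
      decide (2 ^ (i + 1) ≤ X % 2 ^ (i + 1) + K % 2 ^ (i + 1)) := by
  have h1 := tb_mod X i
  have h2 := tb_mod K i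
  have h3 : X % 2 ^ i < 2 ^ i := Nat.mod_lt _ (Nat.two_pow_pos i)
  have h4 : K % 2 ^ i < 2 ^ i := Nat.mod_lt _ (Nat.two_pow_pos i)
  have h5 : 2 ^ (i + 1) = 2 ^ i * 2 := pow_succ 2 i
  rw [h1, h2, h5]
  rcases X.testBit i with _ | _ <;> rcases K.testBit i with _ | _
  · simp
    omega
  · simp
    constructor <;> intro h <;> omega
  · simp
    constructor <;> intro h <;> omega
  · simp
    omega

/-- the sum -/
private theorem tb_sum (X K i : ℕ) :
    xor (X.testBit i) (xor (K.testBit i) (decide (2 ^ i ≤ X % 2 ^ i + K % 2 ^ i))) =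
      (X + K).testBit i := by
  have h1 := tb_mod X i
  have h2 := tb_mod K i
  have h3 : X % 2 ^ i < 2 ^ i := Nat.mod_lt _ (Nat.two_pow_pos i)
  have h4 : K % 2 ^ i < 2 ^ i := Nat.mod_lt _ (Nat.two_pow_pos i)
  have h5 : 2 ^ (i + 1) = 2 ^ i * 2 := pow_succ 2 i
  rw [tb_dec (X + K) i, Nat.add_mod, h1, h2, h5]
  obtain ⟨P, hP⟩ : ∃ P, P = 2 ^ i := ⟨_, rfl⟩
  obtain ⟨a, ha⟩ : ∃ a, a = X % 2 ^ i := ⟨_, rfl⟩
  obtain ⟨b, hb⟩ : ∃ b, b = K % 2 ^ i := ⟨_, rfl⟩
  rw [← ha, ← hb, ← hP]
  rw [← ha, ← hP] at h3
  rw [← hb, ← hP] at h4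
  have hmod : ∀ u, u < P * 4 → u % (P * 2) = if u < P * 2 then u else u - P * 2 := by
    intro u hu
    split_ifs with h
    · exact Nat.mod_eq_of_lt h
    · rw [Nat.mod_eq_sub_mod (by omega), Nat.mod_eq_of_lt (by omega)]
  rcases X.testBit i with _ | _ <;> rcases K.testBit i with _ | _ <;>
    simp only [Bool.toNat_false, Bool.toNat_true, mul_zero, mul_one, add_zero]
  · rw [hmod _ (by omega), if_pos (by omega)]
    simp
  · rw [hmod _ (by omega)]
    by_cases h : P ≤ a + b
    · rw [if_neg (by omega), decide_eq_true h, eq_comm]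
      simp
      omega
    · rw [if_pos (by omega), decide_eq_false h, eq_comm]
      simp
      omega
  · rw [hmod _ (by omega)]
    by_cases h : P ≤ a + b
    · rw [if_neg (by omega), decide_eq_true h, eq_comm]
      simp
      omega
    · rw [if_pos (by omega), decide_eq_false h, eq_comm]
      simp
      omega
  · rw [hmod _ (by omega), if_neg (by omega)]
    by_cases h : P ≤ a + b
    · rw [decide_eq_true h, eq_comm]
      simp
      omega
    · rw [decide_eq_false h, eq_comm]
      simp
      omega

/-! ### The encoding -/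

private theorem enc_scr (w : ℕ) (x : ρ → ℕ) (sc : Fin 3 → Bool) (j : Fin 3) (v : Bool) :
    Function.update (enc w x sc) (Sum.inr j) v = enc w x (Function.update sc j v) := by
  funext b
  rcases b with ⟨r, i⟩ | i
  · rw [Function.update_of_ne (by simp)]
    rfl
  · by_cases h : i = j
    · subst h
      rw [Function.update_self]
      show v = Function.update sc i v i
      rw [Function.update_self]
    · rw [Function.update_of_ne (by simpa using h)]
      show sc i = Function.update sc j v i
      rw [Function.update_of_ne h]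

private theorem run_const (w : ℕ) (x : ρ → ℕ) (sc : Fin 3 → Bool) (j : Fin 3) (v : Bool) :
    (gConst ρ w v j).exec (enc w x sc) = enc w x (Function.update sc j v) := enc_scr w x sc j v

private theorem run_cmp (w : ℕ) (x : ρ → ℕ) (hx : ∀ r, x r < 2 ^ w) (sc : Fin 3 → Bool)
    (r s : ρ) :
    runGates (cmpGates w r s) (enc w x sc) =
      enc w x (Function.update sc 1 (decide (x r ≤ x s))) := by
  unfold cmpGates
  rw [rg_cons, run_const, List.map_eq_flatMap]
  have h1 := rg_finRange (w := w)
    (fun i : Fin w => [(⟨fun c x y => if x == y then c else y, Sum.inr 1, Sum.inr 1,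
      Sum.inl (r, i), Sum.inl (s, i)⟩ : Gate (Bits ρ w))])
    (fun i => enc w x (Function.update sc 1 (decide (x r % 2 ^ i ≤ x s % 2 ^ i)))) (by
      intro i
      rw [rg_cons, rg_nil]
      show Function.update (enc w x (Function.update sc 1 _)) (Sum.inr 1)
        (if (x r).testBit i == (x s).testBit i then
          (Function.update sc 1 (decide (x r % 2 ^ (i : ℕ) ≤ x s % 2 ^ (i : ℕ)))) 1
          else (x s).testBit i) = _
      rw [Function.update_self, enc_scr, Function.update_idem, tb_cmp])
  have h2 : decide (x r % 2 ^ 0 ≤ x s % 2 ^ 0) = true := by simp [Nat.mod_one]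
  rw [h2, Nat.mod_eq_of_lt (hx r), Nat.mod_eq_of_lt (hx s)] at h1
  exact h1

private theorem run_cond (w : ℕ) (x : ρ → ℕ) (hx : ∀ r, x r < 2 ^ w) (sc : Fin 3 → Bool)
    (c : ρ × ρ × Bool) :
    ∃ sc', runGates (condGates w c) (enc w x sc) = enc w x sc' ∧
      sc' 0 = (sc 0 && (decide (x c.1 ≤ x c.2.1) == c.2.2)) := by
  unfold condGates
  rw [rg_append, run_cmp w x hx, rg_cons, rg_nil]
  refine ⟨_, enc_scr w x _ 0 _, ?_⟩
  rw [Function.update_self]
  show ((Function.update sc 1 (decide (x c.1 ≤ x c.2.1))) 0 &&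
    ((Function.update sc 1 (decide (x c.1 ≤ x c.2.1))) 1 == c.2.2)) = _
  rw [Function.update_self, Function.update_of_ne (by decide)]

private theorem run_conds (w : ℕ) (x : ρ → ℕ) (hx : ∀ r, x r < 2 ^ w) :
    ∀ (l : List (ρ × ρ × Bool)) (sc : Fin 3 → Bool),
      ∃ sc', runGates (l.flatMap (condGates w)) (enc w x sc) = enc w x sc' ∧
        sc' 0 = (sc 0 && l.all fun c => decide (x c.1 ≤ x c.2.1) == c.2.2)
  | [], sc => ⟨sc, rfl, by simp⟩
  | c :: l, sc => by
    obtain ⟨sc1, h1, h2⟩ := run_cond w x hx sc c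
    obtain ⟨sc2, h3, h4⟩ := run_conds w x hx l sc1
    refine ⟨sc2, ?_, ?_⟩
    · rw [List.flatMap_cons, rg_append, h1, h3]
    · rw [h4, h2, List.all_cons, Bool.and_assoc]

/-- the state during an addition -/
private def addSt (w : ℕ) (x : ρ → ℕ) (tgt : ρ) (K : ℕ) (i : ℕ) (g c d : Bool) :
    Bits ρ w → Bool
  | Sum.inl (r, j) => if r = tgt ∧ (j : ℕ) < i then (x tgt + K).testBit j else (x r).testBit j
  | Sum.inr j => ![g, c, d] j

private theorem addSt_scr1 (w : ℕ) (x : ρ → ℕ) (tgt : ρ) (K i : ℕ) (g c d v : Bool) :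
    Function.update (addSt w x tgt K i g c d) (Sum.inr 1) v = addSt w x tgt K i g v d := by
  funext b
  rcases b with ⟨r, j⟩ | j
  · rw [Function.update_of_ne (by simp)]
    rfl
  · fin_cases j
    · exact Function.update_of_ne (by simp) _ _
    · exact Function.update_self _ _ _
    · exact Function.update_of_ne (by simp) _ _

private theorem addSt_scr2 (w : ℕ) (x : ρ → ℕ) (tgt : ρ) (K i : ℕ) (g c d v : Bool) :
    Function.update (addSt w x tgt K i g c d) (Sum.inr 2) v = addSt w x tgt K i g c v := by
  funext b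
  rcases b with ⟨r, j⟩ | j
  · rw [Function.update_of_ne (by simp)]
    rfl
  · fin_cases j
    · exact Function.update_of_ne (by simp) _ _
    · exact Function.update_of_ne (by simp) _ _
    · exact Function.update_self _ _ _

private theorem addSt_reg (w : ℕ) (x : ρ → ℕ) (tgt : ρ) (K : ℕ) (i : Fin w) (g c d : Bool) :
    Function.update (addSt w x tgt K i g c d) (Sum.inl (tgt, i)) ((x tgt + K).testBit i) =
      addSt w x tgt K (i + 1) g c d := by
  funext b
  rcases b with ⟨r, j⟩ | j
  · by_cases h : (r, j) = (tgt, i)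
    · obtain ⟨rfl, rfl⟩ := Prod.mk.inj h
      rw [Function.update_self]
      show _ = if r = r ∧ (j : ℕ) < j + 1 then _ else _
      rw [if_pos ⟨rfl, Nat.lt_succ_self _⟩]
    · rw [Function.update_of_ne (fun hc => h (Sum.inl_injective hc))]
      show (if r = tgt ∧ (j : ℕ) < i then (x tgt + K).testBit j else (x r).testBit j) =
        if r = tgt ∧ (j : ℕ) < i + 1 then (x tgt + K).testBit j else (x r).testBit j
      by_cases hr : r = tgt
      · have hji : (j : ℕ) ≠ i := fun hc => h (by rw [hr, Fin.ext hc])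
        by_cases hlt : (j : ℕ) < i
        · rw [if_pos ⟨hr, hlt⟩, if_pos ⟨hr, by omega⟩]
        · rw [if_neg (fun hc => hlt hc.2), if_neg (fun hc => by have := hc.2; omega)]
      · rw [if_neg (fun hc => hr hc.1), if_neg (fun hc => hr hc.1)]
  · rw [Function.update_of_ne (by simp)]
    rfl

private theorem run_add (w : ℕ) (x : ρ → ℕ) (sc : Fin 3 → Bool) (tgt : ρ) (k : ℕ) :
    ∃ sc', runGates (addGates w tgt k) (enc w x sc) =
      enc w (Function.update x tgt ((x tgt + if sc 0 then k else 0) % 2 ^ w)) sc' := by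
  set g := sc 0 with hg
  set K := if g then k else 0 with hK
  have hKb : ∀ i, (g && k.testBit i) = K.testBit i := by
    intro i
    rw [hK]
    rcases g with _ | _
    · simp
    · simp
  unfold addGates
  rw [rg_cons, run_const]
  have h0 : enc w x (Function.update sc 1 false) = addSt w x tgt K 0 g false (sc 2) := by
    funext b
    rcases b with ⟨r, j⟩ | j
    · show (x r).testBit j = if r = tgt ∧ (j : ℕ) < 0 then _ else _
      rw [if_neg (by simp)]
    · fin_cases j <;> rfl
  -- the scratch bits
  let c : ℕ → Bool := fun i => decide (2 ^ i ≤ x tgt % 2 ^ i + K % 2 ^ i)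
  let d : ℕ → Bool := fun i => if i = 0 then sc 2 else c i
  have h1 := rg_finRange (w := w)
    (fun i : Fin w => [(⟨fun x g c => (x && (g && k.testBit i)) || (x && c) ||
        ((g && k.testBit i) && c), Sum.inr 2, Sum.inl (tgt, i), Sum.inr 0, Sum.inr 1⟩ :
          Gate (Bits ρ w)),
      ⟨fun x g c => xor x (xor (g && k.testBit i) c),
        Sum.inl (tgt, i), Sum.inl (tgt, i), Sum.inr 0, Sum.inr 1⟩,
      ⟨fun t _ _ => t, Sum.inr 1, Sum.inr 2, Sum.inr 2, Sum.inr 2⟩])
    (fun i => addSt w x tgt K i g (c i) (d i)) (by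
      intro i
      have e1 : addSt w x tgt K i g (c i) (d i) (Sum.inl (tgt, i)) = (x tgt).testBit i := by
        show (if tgt = tgt ∧ (i : ℕ) < i then _ else _) = _
        rw [if_neg (fun hc => lt_irrefl _ hc.2)]
      have e2 : ∀ d', addSt w x tgt K i g (c i) d' (Sum.inl (tgt, i)) = (x tgt).testBit i := by
        intro d'
        show (if tgt = tgt ∧ (i : ℕ) < i then _ else _) = _
        rw [if_neg (fun hc => lt_irrefl _ hc.2)]
      rw [rg_cons, rg_cons, rg_cons, rg_nil]
      have f1 : (⟨fun x g c => (x && (g && k.testBit i)) || (x && c) ||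
          ((g && k.testBit i) && c), Sum.inr 2, Sum.inl (tgt, i), Sum.inr 0, Sum.inr 1⟩ :
          Gate (Bits ρ w)).exec (addSt w x tgt K i g (c i) (d i)) =
          addSt w x tgt K i g (c i) (c (i + 1)) := by
        show Function.update (addSt w x tgt K i g (c i) (d i)) (Sum.inr 2)
          ((addSt w x tgt K i g (c i) (d i) (Sum.inl (tgt, i)) && (g && k.testBit i)) ||
            (addSt w x tgt K i g (c i) (d i) (Sum.inl (tgt, i)) && c i) ||
            ((g && k.testBit i) && c i)) = _
        rw [e1, hKb, addSt_scr2]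
        congr 1
        exact tb_carry (x tgt) K i
      have f2 : (⟨fun x g c => xor x (xor (g && k.testBit i) c),
          Sum.inl (tgt, i), Sum.inl (tgt, i), Sum.inr 0, Sum.inr 1⟩ :
          Gate (Bits ρ w)).exec (addSt w x tgt K i g (c i) (c (i + 1))) =
          addSt w x tgt K (i + 1) g (c i) (c (i + 1)) := by
        show Function.update (addSt w x tgt K i g (c i) (c (i + 1))) (Sum.inl (tgt, i))
          (xor (addSt w x tgt K i g (c i) (c (i + 1)) (Sum.inl (tgt, i)))
            (xor (g && k.testBit i) (c i))) = _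
        rw [e2, hKb, ← addSt_reg]
        congr 1
        exact tb_sum (x tgt) K i
      rw [f1, f2]
      show Function.update (addSt w x tgt K (i + 1) g (c i) (c (i + 1))) (Sum.inr 1)
        (c (i + 1)) = addSt w x tgt K (i + 1) g (c (i + 1)) (d (i + 1))
      rw [addSt_scr1]
      rfl)
  have hc0 : c 0 = false := by
    show decide (2 ^ 0 ≤ x tgt % 2 ^ 0 + K % 2 ^ 0) = false
    simp [Nat.mod_one]
  have hd0 : d 0 = sc 2 := if_pos rfl
  simp only [hc0, hd0] at h1
  rw [h0, h1]
  refine ⟨![g, c w, d w], ?_⟩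
  funext b
  rcases b with ⟨r, j⟩ | j
  · show (if r = tgt ∧ (j : ℕ) < w then (x tgt + K).testBit j else (x r).testBit j) =
      (Function.update x tgt ((x tgt + K) % 2 ^ w) r).testBit j
    by_cases hr : r = tgt
    · subst hr
      rw [if_pos ⟨rfl, j.2⟩, Function.update_self, Nat.testBit_mod_two_pow]
      simp
    · rw [if_neg (fun hc => hr hc.1), Function.update_of_ne hr]
  · rfl

private theorem run_instr (w : ℕ) (I : Instr ρ) (x : ρ → ℕ) (hx : ∀ r, x r < 2 ^ w)
    (sc : Fin 3 → Bool) :
    (∃ sc', runGates (I.gates w) (enc w x sc) = enc w (I.exec w x) sc') ∧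
      ∀ r, I.exec w x r < 2 ^ w := by
  constructor
  · unfold Instr.gates
    rw [rg_cons, run_const, rg_append]
    obtain ⟨sc1, h1, h2⟩ := run_conds w x hx I.cond (Function.update sc 0 true)
    rw [Function.update_self, Bool.true_and] at h2
    have h2' : sc1 0 = I.holds x := h2
    rw [h1]
    obtain ⟨sc2, h3⟩ := run_add w x sc1 I.tgt I.k
    refine ⟨sc2, ?_⟩
    rw [h3, h2']
    congr 1
    unfold Instr.exec
    by_cases hh : I.holds x = true
    · rw [if_pos hh, if_pos hh]
    · rw [if_neg hh, if_neg hh, add_zero, Nat.mod_eq_of_lt (hx _), Function.update_eq_self]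
  · intro r
    unfold Instr.exec
    split_ifs with hh
    · by_cases hr : r = I.tgt
      · rw [hr, Function.update_self]
        exact Nat.mod_lt _ (Nat.two_pow_pos w)
      · rw [Function.update_of_ne hr]
        exact hx r
    · exact hx r

theorem compile_run (w : ℕ) (P : List (Instr ρ)) (x : ρ → ℕ) (hx : ∀ r, x r < 2 ^ w)
    (sc : Fin 3 → Bool) :
    (∃ sc', runGates (compile w P) (enc w x sc) = enc w (runInstrs w P x) sc') ∧
      ∀ r, runInstrs w P x r < 2 ^ w := by
  induction P generalizing x sc with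
  | nil => exact ⟨⟨sc, rfl⟩, hx⟩
  | cons I P ih =>
    obtain ⟨⟨sc1, h1⟩, h2⟩ := run_instr w I x hx sc
    obtain ⟨⟨sc2, h3⟩, h4⟩ := ih (I.exec w x) h2 sc1
    refine ⟨⟨sc2, ?_⟩, h4⟩
    unfold compile at h3 ⊢
    rw [List.flatMap_cons, rg_append, h1, h3]
    rfl

end Pool.Agent.LinSched
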