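import Pool.Agent.Lib.MP_b03ab8_lc.BDefs

/-!
# Module B.MSize: the size of the machine is polynomial

PROOF. Let `s = G.size`, `R = 2 ^ (s + 1)`, `S = s + a.size + b.size + 1`. `a < 2 ^ a.size`,
`b < 2 ^ b.size` (`Nat.lt_size_self`).
`w = thrW R a b`: `thrK R a ≤ 8 (a + 1) R ^ 62`, `thrZ R a b ≤ 16 (a + 1) b R ^ 70`,
`thrT R a ≤ 2 (a + 1) R ^ 8 * 8 (a + 1) R ^ 62 = 16 (a + 1) ^ 2 R ^ 70`, so
`V = R ^ 3 + R (Z + 4) + θ ≤ 64 (a + 1) ^ 2 (b + 1) R ^ 71 ≤ 2 ^ (6 + 2 (a.size + 1) + b.size + 1 +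
71 (s + 1))`, hence `w = V.size + 1 ≤ 71 s + 2 a.size + b.size + 83 ≤ 100 S`
(`Nat.size_le : n.size ≤ m ↔ n < 2 ^ m`).
Registers: `card (Reg (Fin N) (Fin A)) = 7 + 3 N + 2 A ≤ 7 S`, since `N ≤ s` and
`A = G.arcs.length ≤ s`, `N + A ≤ s` (every summand of `size` is at least `1`), so
`card Bits = card Reg * w + 3 ≤ 700 S ^ 2 + 3`.
Gates: an instruction with `c ≤ 4` conditions has `1 + c (w + 2) + (1 + 3 w) ≤ 7 w + 10` gates
(`length` of `gates`). The number of instructions of `prog` is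
`2 N + ∑_j (3 |E_j| + 3) + 2 = 5 N + 3 A + 2 ≤ 7 S`, because `∑_j |E_j| = A`
(`∑_j (filter (d e = j)).length = length`; or bound it generously). So at most
`7 S (700 S + 10) ≤ 4970 S ^ 2` gates. Total `≤ 20000 S ^ 2`.
-/

/-!
# Module B.MSize: the size of the machine is polynomial

PROOF. Let `s = G.size`, `R = 2 ^ (s + 1)`, `S = s + a.size + b.size + 1`. `a < 2 ^ a.size`,
`b < 2 ^ b.size` (`Nat.lt_size_self`).
`w = thrW R a b`: `thrK R a ≤ 8 (a + 1) R ^ 62`, `thrZ R a b ≤ 16 (a + 1) b R ^ 70`,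
`thrT R a ≤ 2 (a + 1) R ^ 8 * 8 (a + 1) R ^ 62 = 16 (a + 1) ^ 2 R ^ 70`, so
`V = R ^ 3 + R (Z + 4) + θ ≤ 64 (a + 1) ^ 2 (b + 1) R ^ 71 ≤ 2 ^ (6 + 2 (a.size + 1) + b.size + 1 +
71 (s + 1))`, hence `w = V.size + 1 ≤ 71 s + 2 a.size + b.size + 83 ≤ 100 S`
(`Nat.size_le : n.size ≤ m ↔ n < 2 ^ m`).
Registers: `card (Reg (Fin N) (Fin A)) = 7 + 3 N + 2 A ≤ 7 S`, since `N ≤ s` and
`A = G.arcs.length ≤ s`, `N + A ≤ s` (every summand of `size` is at least `1`), so
`card Bits = card Reg * w + 3 ≤ 700 S ^ 2 + 3`.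
Gates: an instruction with `c ≤ 4` conditions has `1 + c (w + 2) + (1 + 3 w) ≤ 7 w + 10` gates
(`length` of `gates`). The number of instructions of `prog` is
`2 N + ∑_j (3 |E_j| + 3) + 2 = 5 N + 3 A + 2 ≤ 7 S`, because `∑_j |E_j| = A`
(`∑_j (filter (d e = j)).length = length`; or bound it generously). So at most
`7 S (700 S + 10) ≤ 4970 S ^ 2` gates. Total `≤ 20000 S ^ 2`.
-/

open Finset

namespace Pool.Agent.LinSched

private theorem ms_size {N : ℕ} (G : LinGraph (Fin N)) : N + G.arcs.length ≤ G.size := by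
  unfold LinGraph.size
  have h1 : N ≤ ∑ i, (1 + (G.p i).size) := by
    calc N = ∑ _i : Fin N, 1 := by simp
      _ ≤ _ := Finset.sum_le_sum fun i _ => by omega
  have h2 : ∀ L : List (Arc (Fin N)), L.length ≤
      (L.map fun e => 2 * (Fintype.card (Fin N)).size + e.α.size + e.α'.size
        + (1 + e.h.natAbs.size) + (1 + e.h'.natAbs.size)).sum := by
    intro L
    induction L with
    | nil => simp
    | cons e L ih =>
      rw [List.length_cons, List.map_cons, List.sum_cons]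
      omega
  have := h2 G.arcs
  omega

private theorem ms_w (s a b : ℕ) : thrW (2 ^ (s + 1)) a b ≤ 71 * s + 2 * a.size + b.size + 79 := by
  have ha : a + 1 ≤ 2 ^ a.size := Nat.lt_size_self a
  have hb : b + 1 ≤ 2 ^ b.size := Nat.lt_size_self b
  unfold thrW
  have hR : 1 ≤ 2 ^ (s + 1) := Nat.one_le_two_pow
  have hR71 : (2 ^ (s + 1)) ^ 71 = 2 ^ (71 * s + 71) := by rw [← pow_mul]; congr 1; ring
  generalize 2 ^ (s + 1) = R at hR hR71 ⊢
  have hK0 : 2 * a * R ^ 8 + 1 ≤ 2 * (a + 1) * R ^ 8 := by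
    have : 1 ≤ R ^ 8 := Nat.one_le_pow _ _ hR
    nlinarith
  have hK : thrK R a ≤ 8 * (a + 1) * R ^ 62 := by
    unfold thrK
    calc 4 * R ^ 54 * (2 * a * R ^ 8 + 1) ≤ 4 * R ^ 54 * (2 * (a + 1) * R ^ 8) := by gcongr
      _ = 8 * (a + 1) * R ^ 62 := by ring
  have hZ : thrZ R a b ≤ 16 * (a + 1) * b * R ^ 70 := by
    unfold thrZ
    calc 2 * b * R ^ 8 * thrK R a ≤ 2 * b * R ^ 8 * (8 * (a + 1) * R ^ 62) := by gcongr
      _ = 16 * (a + 1) * b * R ^ 70 := by ring
  have hT : thrT R a ≤ 16 * (a + 1) ^ 2 * R ^ 70 := by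
    unfold thrT
    calc (2 * a * R ^ 8 + 1) * thrK R a ≤ (2 * (a + 1) * R ^ 8) * (8 * (a + 1) * R ^ 62) := by
          gcongr
      _ = 16 * (a + 1) ^ 2 * R ^ 70 := by ring
  have h70 : R ^ 70 ≤ R ^ 71 := Nat.pow_le_pow_right hR (by norm_num)
  have h3 : R ^ 3 ≤ R ^ 71 := Nat.pow_le_pow_right hR (by norm_num)
  have h1 : R ≤ R ^ 71 := by
    calc R = R ^ 1 := (pow_one R).symm
      _ ≤ _ := Nat.pow_le_pow_right hR (by norm_num)
  have hV : R ^ 3 + R * (thrZ R a b + 4) + thrT R a ≤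
      R ^ 71 * (64 * ((a + 1) ^ 2 * (b + 1))) := by
    have e1 : R * (thrZ R a b + 4) ≤ R ^ 71 * (16 * (a + 1) * b) + 4 * R ^ 71 := by
      calc R * (thrZ R a b + 4) ≤ R * (16 * (a + 1) * b * R ^ 70 + 4) := by gcongr
        _ = R ^ 71 * (16 * (a + 1) * b) + 4 * R := by ring
        _ ≤ _ := by gcongr
    have e2 : thrT R a ≤ R ^ 71 * (16 * (a + 1) ^ 2) := by
      calc thrT R a ≤ 16 * (a + 1) ^ 2 * R ^ 70 := hT
        _ ≤ 16 * (a + 1) ^ 2 * R ^ 71 := by gcongr
        _ = _ := by ring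
    calc R ^ 3 + R * (thrZ R a b + 4) + thrT R a
        ≤ R ^ 71 + (R ^ 71 * (16 * (a + 1) * b) + 4 * R ^ 71) + R ^ 71 * (16 * (a + 1) ^ 2) := by
          gcongr
      _ = R ^ 71 * (5 + 16 * (a + 1) * b + 16 * (a + 1) ^ 2) := by ring
      _ ≤ R ^ 71 * (64 * ((a + 1) ^ 2 * (b + 1))) := by
          refine Nat.mul_le_mul_left _ ?_
          nlinarith [Nat.zero_le (a * a * b), Nat.zero_le (a * b), Nat.zero_le (a * a)]
  have hlt : R ^ 3 + R * (thrZ R a b + 4) + thrT R a < 2 ^ (71 * s + 2 * a.size + b.size + 78) := by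
    refine lt_of_le_of_lt hV ?_
    rw [hR71]
    have e3 : (a + 1) ^ 2 * (b + 1) ≤ (2 ^ a.size) ^ 2 * 2 ^ b.size := by gcongr
    calc 2 ^ (71 * s + 71) * (64 * ((a + 1) ^ 2 * (b + 1)))
        ≤ 2 ^ (71 * s + 71) * (64 * ((2 ^ a.size) ^ 2 * 2 ^ b.size)) := by gcongr
      _ = 2 ^ (71 * s + 2 * a.size + b.size + 77) := by
          rw [← pow_mul, show (64 : ℕ) = 2 ^ 6 by norm_num, ← pow_add, ← pow_add, ← pow_add]
          congr 1
          ring
      _ < _ := Nat.pow_lt_pow_right (by norm_num) (by omega)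
  have := Nat.size_le.2 hlt
  omega

private theorem ms_card (N A : ℕ) :
    Fintype.card (Reg (Fin N) (Fin A)) = 7 + 3 * N + 2 * A := by
  rw [Fintype.card_congr (Reg.equiv (Fin N) (Fin A))]
  simp only [Fintype.card_sum, Fintype.card_fin]
  ring

private theorem ms_flat {α β : Type} (f : α → List β) (c : ℕ) : ∀ P : List α,
    (∀ x ∈ P, (f x).length ≤ c) → (P.flatMap f).length ≤ P.length * c
  | [], _ => by simp
  | x :: P, h => by
    rw [List.flatMap_cons, List.length_append, List.length_cons]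
    have h1 := ms_flat f c P fun y hy => h y (List.mem_cons_of_mem _ hy)
    have h2 := h x List.mem_cons_self
    rw [Nat.succ_mul]
    omega

private theorem ms_gates {ρ : Type} (w : ℕ) (I : Instr ρ) (hI : I.cond.length ≤ 4) :
    (I.gates w).length ≤ 7 * w + 10 := by
  unfold Instr.gates
  rw [List.length_cons, List.length_append]
  have h1 : (I.cond.flatMap (condGates w)).length ≤ I.cond.length * (w + 2) :=
    ms_flat _ _ _ fun c _ => by simp [condGates, cmpGates]
  have h2 : (addGates w I.tgt I.k).length ≤ 1 + w * 3 := by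
    unfold addGates
    rw [List.length_cons]
    have := ms_flat (fun (i : Fin w) =>
      ([⟨fun x g c => (x && (g && I.k.testBit i)) || (x && c) || ((g && I.k.testBit i) && c),
        Sum.inr 2, Sum.inl (I.tgt, i), Sum.inr 0, Sum.inr 1⟩,
      ⟨fun x g c => xor x (xor (g && I.k.testBit i) c),
        Sum.inl (I.tgt, i), Sum.inl (I.tgt, i), Sum.inr 0, Sum.inr 1⟩,
      ⟨fun t _ _ => t, Sum.inr 1, Sum.inr 2, Sum.inr 2, Sum.inr 2⟩] : List (Gate (Bits ρ w))))
      3 (List.finRange w) fun _ _ => by simp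
    rw [List.length_finRange] at this
    omega
  have h3 : I.cond.length * (w + 2) ≤ 4 * (w + 2) := Nat.mul_le_mul_right _ hI
  omega

private theorem ms_count {N : ℕ} {ι : Type} (d : ι → Fin N) : ∀ Es : List ι,
    ∑ j, (Es.filter fun e => decide (d e = j)).length = Es.length
  | [] => by simp
  | e :: Es => by
    have h1 := ms_count d Es
    have h2 : ∀ j, ((e :: Es).filter fun e => decide (d e = j)).length =
        (if d e = j then 1 else 0) + (Es.filter fun e => decide (d e = j)).length := by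
      intro j
      by_cases h : d e = j
      · rw [List.filter_cons_of_pos (by simpa using h), List.length_cons, if_pos h, add_comm]
      · rw [List.filter_cons_of_neg (by simpa using h), if_neg h, zero_add]
    rw [Finset.sum_congr rfl fun j _ => h2 j, Finset.sum_add_distrib, h1, List.length_cons]
    simp [add_comm]

private theorem ms_prog {N : ℕ} {ι : Type} (G : NGraph (Fin N) ι) (w : ℕ) (Es : List ι)
    (i : Fin N) : (prog G w (List.finRange N) Es i).length = 5 * N + 3 * Es.length + 2 := by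
  unfold prog
  rw [List.length_append, List.length_append, List.length_flatMap, List.length_flatMap,
    ← Fin.sum_univ_def, ← Fin.sum_univ_def]
  have h1 : ∀ j : Fin N, (prog1 (ι := ι) w j).length = 2 := fun j => rfl
  have h2 : ∀ j : Fin N, (prog2 G w (Es.filter fun e => decide (G.d e = j)) j).length =
      3 * (Es.filter fun e => decide (G.d e = j)).length + 3 := by
    intro j
    unfold prog2
    rw [List.length_append, List.length_append, List.length_map, List.length_flatMap]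
    simp only [List.length_cons, List.length_nil, List.map_const', List.sum_replicate, smul_eq_mul]
    ring
  have h3 : (prog3 (ι := ι) i).length = 2 := rfl
  rw [Finset.sum_congr rfl fun j _ => h1 j, Finset.sum_congr rfl fun j _ => h2 j,
    Finset.sum_add_distrib, ← Finset.mul_sum, ms_count, h3]
  simp only [Finset.sum_const, Finset.card_univ, Fintype.card_fin, smul_eq_mul]
  ring

private theorem ms_cond {N : ℕ} {ι : Type} (G : NGraph (Fin N) ι) (w : ℕ) (Es : List ι)
    (i : Fin N) : ∀ I ∈ prog G w (List.finRange N) Es i, I.cond.length ≤ 4 := by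
  intro I hI
  unfold prog at hI
  simp only [List.mem_append, List.mem_flatMap, prog1, prog2, prog3, List.mem_map,
    List.mem_cons, List.not_mem_nil, or_false] at hI
  rcases hI with (⟨j, -, rfl | rfl⟩ | ⟨j, -, ((⟨e, -, rfl⟩ | ⟨e, -, rfl | rfl⟩) | rfl | rfl | rfl)⟩) |
    rfl | rfl <;> simp [eqc]

theorem machine_size {N : ℕ} (G : LinGraph (Fin N)) (i : Fin N) (a b : ℕ) :
    (G.machine i a b).size ≤ 20000 * (G.size + a.size + b.size + 1) ^ 2 := by
  obtain ⟨S, hS⟩ : ∃ S, S = G.size + a.size + b.size + 1 := ⟨_, rfl⟩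
  obtain ⟨w, hw⟩ : ∃ w, w = thrW (2 ^ (G.size + 1)) a b := ⟨_, rfl⟩
  have h0 := ms_size G
  have hw' : w ≤ 100 * S := by
    have := ms_w G.size a b
    omega
  have h1 : Fintype.card (Bits (Reg (Fin N) (Fin G.arcs.length)) w) =
      (7 + 3 * N + 2 * G.arcs.length) * w + 3 := by
    rw [Fintype.card_sum, Fintype.card_prod, ms_card, Fintype.card_fin, Fintype.card_fin]
  have h2 : (compile w (prog G.norm w (List.finRange N)
      (List.finRange G.arcs.length) i)).length ≤
      (5 * N + 3 * G.arcs.length + 2) * (7 * w + 10) := by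
    have h3 := ms_flat (Instr.gates w) (7 * w + 10) (prog G.norm w (List.finRange N)
      (List.finRange G.arcs.length) i) fun I hI => ms_gates w I (ms_cond _ _ _ _ I hI)
    rw [ms_prog, List.length_finRange] at h3
    exact h3
  have h4 : (G.machine i a b).size = Fintype.card (Bits (Reg (Fin N) (Fin G.arcs.length)) w) +
      (compile w (prog G.norm w (List.finRange N)
      (List.finRange G.arcs.length) i)).length := by
    subst hw
    rfl
  rw [h4, h1, ← hS]
  have h5 : 7 + 3 * N + 2 * G.arcs.length ≤ 7 * S := by omega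
  have h6 : 5 * N + 3 * G.arcs.length + 2 ≤ 7 * S := by omega
  have h7 : (7 + 3 * N + 2 * G.arcs.length) * w ≤ 7 * S * (100 * S) := Nat.mul_le_mul h5 hw'
  have h8 : (5 * N + 3 * G.arcs.length + 2) * (7 * w + 10) ≤ 7 * S * (7 * (100 * S) + 10) :=
    Nat.mul_le_mul h6 (by omega)
  have hS1 : 1 ≤ S := by omega
  nlinarith

end Pool.Agent.LinSched
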