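import Pool.Agent.Lib.MP_b03ab8_lc.BDefs

/-!
# Module B.Thr: the arithmetic of the threshold

PROOF. `Q = R ^ 8`, `K = thrK R a = 4 R ^ 54 (2 a Q + 1)`, `Z = thrZ = 2 b Q K`,
`θ = thrT = (2 a Q + 1) K ≥ 2`. `mu = x / y`; `a / b < 1 / mu` iff `a x < b y` (positive
denominators, in `ℕ`).
(⇐) Let `a x + 1 ≤ b y`. Put `E = 2 R ^ 2 (2 a Q + 1)`. `f (θ - 1) ≤ (mu + 1 / E) (θ - 1) +
E R ^ 50 ≤ (mu + 1 / E) θ + E R ^ 50`. `mu (2 a Q + 1) = (2 Q a x + x) / y ≤ (2 Q (b y - 1) + x) / y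
= 2 Q b - (2 Q - x) / y ≤ 2 Q b - Q / y ≤ 2 Q b - 1 / R ^ 2` (`x ≤ Q`, `y ≤ R ^ 10`), and
`(2 a Q + 1) / E = 1 / (2 R ^ 2)`. So `(mu + 1 / E) θ ≤ (2 Q b - 1 / (2 R ^ 2)) K`, and
`E R ^ 50 = 2 R ^ 52 (2 a Q + 1) = K / (2 R ^ 2)`. Sum: `≤ 2 Q b K = Z`. As `f` is `ℕ`-valued:
`f (θ - 1) ≤ Z`.
(⇒) Let `a x ≥ b y`. `θ ≥ K ≥ 2`, so not `θ ≤ 1`. `f (θ - 1) ≥ mu (θ - 1) - R ^ 21`,
`mu θ = (2 Q a x + x) K / y ≥ (2 Q b y + x) K / y = Z + mu K`, so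
`f (θ - 1) ≥ Z + mu (K - 1) - R ^ 21 ≥ Z + K - 1 - R ^ 21 > Z` (`mu ≥ 1`, `K ≥ 4 R ^ 54
> R ^ 21 + 1`).
-/

open Finset

namespace Pool.Agent.LinSched

theorem threshold (R a b : ℕ) (hR : 2 ≤ R) (hb : 0 < b) (f : ℕ → ℕ) (mu : ℝ) (x y : ℕ)
    (hx : 0 < x) (hy : 0 < y) (hxQ : x ≤ R ^ 8) (hyQ : y ≤ R ^ 10) (hmu : mu * y = x)
    (h1 : 1 ≤ mu) (hlow : ∀ n : ℕ, 1 ≤ n → mu * n - (R : ℝ) ^ 21 ≤ f n)
    (hup : ∀ E : ℕ, 1 ≤ E → ∀ n : ℕ, 1 ≤ n →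
      (f n : ℝ) ≤ (mu + 1 / E) * n + E * (R : ℝ) ^ 50) :
    (thrT R a ≤ 1 ∨ f (thrT R a - 1) ≤ thrZ R a b) ↔ (a : ℝ) / b < 1 / mu := by
  have hR1 : (2 : ℝ) ≤ R := by exact_mod_cast hR
  have hR0 : (0 : ℝ) < R := by linarith
  have hb' : (0 : ℝ) < b := by exact_mod_cast hb
  have hy' : (0 : ℝ) < y := by exact_mod_cast hy
  have hx' : (0 : ℝ) < x := by exact_mod_cast hx
  have hmu0 : 0 < mu := by linarith
  have hiff : (a : ℝ) / b < 1 / mu ↔ a * x < b * y := by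
    rw [div_lt_div_iff₀ hb' hmu0, one_mul]
    have h2 : ((a : ℝ) * mu < b) ↔ ((a : ℝ) * x < b * y) := by
      rw [← hmu, ← mul_assoc]
      exact (mul_lt_mul_iff_left₀ hy').symm
    rw [h2]
    exact_mod_cast Iff.rfl
  have hK0 : 1 ≤ R ^ 54 := Nat.one_le_pow _ _ (by omega)
  have hA1 : 1 ≤ 2 * a * R ^ 8 + 1 := Nat.le_add_left _ _
  have hK4 : 4 * R ^ 54 ≤ thrK R a := Nat.le_mul_of_pos_right _ hA1
  have hTK : thrK R a ≤ thrT R a := Nat.le_mul_of_pos_left _ hA1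
  have hT2 : 2 ≤ thrT R a := by omega
  have hTr : ((thrT R a - 1 : ℕ) : ℝ) = (thrT R a : ℝ) - 1 := by
    rw [Nat.cast_sub (by omega), Nat.cast_one]
  have hA' : (0 : ℝ) < 2 * a * (R : ℝ) ^ 8 + 1 := by positivity
  have hKr : (thrK R a : ℝ) = 4 * (R : ℝ) ^ 54 * (2 * a * (R : ℝ) ^ 8 + 1) := by
    unfold thrK
    push_cast
    ring
  have hKp : (0 : ℝ) < thrK R a := by
    rw [hKr]
    positivity
  have hZr : (thrZ R a b : ℝ) = 2 * b * (R : ℝ) ^ 8 * thrK R a := by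
    unfold thrZ
    push_cast
    ring
  have hTt : (thrT R a : ℝ) = (2 * a * (R : ℝ) ^ 8 + 1) * thrK R a := by
    unfold thrT
    push_cast
    ring
  have hxq : (x : ℝ) ≤ (R : ℝ) ^ 8 := by exact_mod_cast hxQ
  have hyq : (y : ℝ) ≤ (R : ℝ) ^ 10 := by exact_mod_cast hyQ
  rw [hiff]
  constructor
  · intro h
    by_contra hcon
    have hab : b * y ≤ a * x := not_lt.1 hcon
    rcases h with h | h
    · omega
    have h3 : (f (thrT R a - 1) : ℝ) ≤ thrZ R a b := by exact_mod_cast h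
    have h4 := hlow (thrT R a - 1) (by omega)
    rw [hTr] at h4
    have h5 : ((b : ℝ) * y) ≤ a * x := by exact_mod_cast hab
    have h6 : (thrZ R a b : ℝ) + mu * thrK R a ≤ mu * thrT R a := by
      refine le_of_mul_le_mul_right ?_ hy'
      have h7 : mu * (thrT R a : ℝ) * y = x * thrT R a := by rw [← hmu]; ring
      have h8 : ((thrZ R a b : ℝ) + mu * thrK R a) * y =
          thrZ R a b * y + x * thrK R a := by rw [← hmu]; ring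
      rw [h7, h8, hZr, hTt]
      have h9 : 2 * (b : ℝ) * (R : ℝ) ^ 8 * thrK R a * y + x * thrK R a =
          (2 * (R : ℝ) ^ 8 * (b * y) + x) * thrK R a := by ring
      have h10 : (x : ℝ) * ((2 * a * (R : ℝ) ^ 8 + 1) * thrK R a) =
          (2 * (R : ℝ) ^ 8 * (a * x) + x) * thrK R a := by ring
      rw [h9, h10]
      refine mul_le_mul_of_nonneg_right ?_ hKp.le
      have h11 : (0 : ℝ) ≤ 2 * (R : ℝ) ^ 8 := by positivity
      have h12 := mul_le_mul_of_nonneg_left h5 h11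
      linarith
    have h13 : (4 : ℝ) * (R : ℝ) ^ 54 ≤ thrK R a := by exact_mod_cast hK4
    have h14 : (1 : ℝ) ≤ (R : ℝ) ^ 21 := one_le_pow₀ (by linarith)
    have h15 : (R : ℝ) ^ 21 ≤ (R : ℝ) ^ 54 := pow_le_pow_right₀ (by linarith) (by norm_num)
    have h16 : (thrK R a : ℝ) - 1 ≤ mu * (thrK R a - 1) := by
      have h17 : (0 : ℝ) ≤ (thrK R a : ℝ) - 1 := by linarith
      nlinarith
    nlinarith
  · intro h
    right
    have h3 : a * x + 1 ≤ b * y := h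
    have h4 : (a : ℝ) * x + 1 ≤ b * y := by exact_mod_cast h3
    have hE1 : 1 ≤ 2 * R ^ 2 * (2 * a * R ^ 8 + 1) := by
      have : 0 < 2 * R ^ 2 * (2 * a * R ^ 8 + 1) := by positivity
      omega
    have h5 := hup (2 * R ^ 2 * (2 * a * R ^ 8 + 1)) hE1 (thrT R a - 1) (by omega)
    rw [hTr] at h5
    have hEr : ((2 * R ^ 2 * (2 * a * R ^ 8 + 1) : ℕ) : ℝ) =
        2 * (R : ℝ) ^ 2 * (2 * a * (R : ℝ) ^ 8 + 1) := by push_cast; ring
    rw [hEr] at h5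
    set A : ℝ := 2 * a * (R : ℝ) ^ 8 + 1 with hAdef
    have hEp : (0 : ℝ) < 2 * (R : ℝ) ^ 2 * A := by positivity
    have h6 : (f (thrT R a - 1) : ℝ) ≤ (mu + 1 / (2 * (R : ℝ) ^ 2 * A)) * thrT R a +
        2 * (R : ℝ) ^ 2 * A * (R : ℝ) ^ 50 := by
      have h7 : (0 : ℝ) ≤ mu + 1 / (2 * (R : ℝ) ^ 2 * A) := by positivity
      nlinarith
    have h8 : mu * A ≤ 2 * (R : ℝ) ^ 8 * b - 1 / (R : ℝ) ^ 2 := by
      refine le_of_mul_le_mul_right ?_ hy'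
      have h9 : mu * A * y = 2 * (R : ℝ) ^ 8 * (a * x) + x := by
        rw [hAdef, ← hmu]
        ring
      have h10 : 1 / (R : ℝ) ^ 2 * y ≤ (R : ℝ) ^ 8 := by
        rw [one_div, inv_mul_le_iff₀ (by positivity), ← pow_add]
        exact hyq
      have h11 : (2 * (R : ℝ) ^ 8 * b - 1 / (R : ℝ) ^ 2) * y =
          2 * (R : ℝ) ^ 8 * (b * y) - 1 / (R : ℝ) ^ 2 * y := by ring
      rw [h9, h11]
      have h12 : (0 : ℝ) ≤ 2 * (R : ℝ) ^ 8 := by positivity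
      have h13 := mul_le_mul_of_nonneg_left h4 h12
      linarith
    have h14 : (mu + 1 / (2 * (R : ℝ) ^ 2 * A)) * thrT R a =
        (mu * A + 1 / (2 * (R : ℝ) ^ 2)) * thrK R a := by
      rw [hTt]
      field_simp
    have h15 : 2 * (R : ℝ) ^ 2 * A * (R : ℝ) ^ 50 = 1 / (2 * (R : ℝ) ^ 2) * thrK R a := by
      rw [hKr]
      field_simp
      ring
    have h16 : (f (thrT R a - 1) : ℝ) ≤ thrZ R a b := by
      rw [h14, h15] at h6
      rw [hZr]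
      have h17 := mul_le_mul_of_nonneg_right h8 hKp.le
      have h18 : (1 : ℝ) / (R : ℝ) ^ 2 = 1 / (2 * (R : ℝ) ^ 2) + 1 / (2 * (R : ℝ) ^ 2) := by
        field_simp
        ring
      rw [h18] at h17
      have h19 : (mu * A + 1 / (2 * (R : ℝ) ^ 2)) * thrK R a =
          mu * A * thrK R a + 1 / (2 * (R : ℝ) ^ 2) * thrK R a := by ring
      have h20 : (2 * (R : ℝ) ^ 8 * b - (1 / (2 * (R : ℝ) ^ 2) + 1 / (2 * (R : ℝ) ^ 2))) *
          thrK R a = 2 * b * (R : ℝ) ^ 8 * thrK R a - 1 / (2 * (R : ℝ) ^ 2) * thrK R a -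
          1 / (2 * (R : ℝ) ^ 2) * thrK R a := by ring
      rw [h20] at h17
      rw [h19] at h6
      linarith only [h6, h17]
    exact_mod_cast h16

end Pool.Agent.LinSched
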