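import Pool.Agent.Lib.MP_b03ab8_lc.B.Acc
import Pool.Agent.Lib.MP_b03ab8_lc.B.Thr
import Pool.Agent.Lib.MP_b03ab8_lc.A.Freq

/-!
# Module B.Main: the frequencies are computed in polynomial space

PROOF. `main_freq` gives `τ`, `mu`, `mu i * y = x` with `x ≤ R ^ 8 = 2 ^ (8 (size + 1))`,
`y ≤ 2 ^ (10 (size + 1))`, and the frequency `1 / mu i = y / x`. `norm_ok`, `norm_bnd`,
`accepts_iff`, and `threshold` with `f = τ i`, `R = 2 ^ (G.size + 1)`.
-/

open Finset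

namespace Pool.Agent.LinSched

theorem member_main {N : ℕ} (G : LinGraph (Fin N)) (hc : G.Consistent)
    (hn : G.NonReentrant) (i : Fin N) :
    ∃ x y : ℕ, 0 < x ∧ 0 < y ∧ x ≤ 2 ^ (8 * (G.size + 1)) ∧ y ≤ 2 ^ (10 * (G.size + 1)) ∧
      G.HasFrequency i ((y : ℝ) / x) ∧
      ∀ a b : ℕ, 0 < b → ((G.machine i a b).Accepts ↔ (a : ℝ) / b < (y : ℝ) / x) := by
  obtain ⟨τ, mu, hτ, h1, hrat, hlow, hup, hf⟩ := main_freq G hc hn
  obtain ⟨x, y, hx, hy, hxQ, hyQ, hmu⟩ := hrat i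
  have hR : G.norm.Bnd (2 ^ (G.size + 1)) := norm_bnd G
  have hx0 : (0 : ℝ) < x := by exact_mod_cast hx
  have hy0 : (0 : ℝ) < y := by exact_mod_cast hy
  have hmu0 : (0 : ℝ) < mu i := lt_of_lt_of_le one_pos (h1 i)
  have hfr : 1 / mu i = (y : ℝ) / x := by
    rw [← hmu]; field_simp
  refine ⟨x, y, hx, hy, ?_, ?_, ?_, ?_⟩
  · rw [← pow_mul, Nat.mul_comm] at hxQ; exact hxQ
  · rw [← pow_mul, Nat.mul_comm] at hyQ; exact hyQ
  · rw [← hfr]; exact hf i
  · intro a b hb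
    rw [accepts_iff G (norm_ok G hn) hR hτ i a b, ← hfr]
    refine threshold (2 ^ (G.size + 1)) a b hR.two_le hb (τ i) (mu i) x y hx hy hxQ hyQ hmu
      (h1 i) ?_ ?_
    · intro n hn1
      have := hlow i n hn1
      push_cast
      exact this
    · intro E hE n hn1
      have := hup E hE i n hn1
      push_cast
      exact this

end Pool.Agent.LinSched
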